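import Mathlib

/-!
# EQ-W: helper82's W-scheme, definitions

`κ > 0`, `m = exp κ`, `C = cosh κ`, `ω = C - 1`.  `w n` is the quotient of the gaps right and left of
the node `n`, `γ(w) = ((1 + w^(-e))/2)^(-2/e)`.  Link `n` (from the node `n` to the node `n+1`) has a
position `Y n`, `ζ n = C - Y n`, and the nodes have deviations `d n`:
`1 / w n = Y n - d n`, `w (n+1) = (2C - Y n)/(1 - d (n+1))`, so that
`Y (n+1) = d (n+1) + (1 - d (n+1))/(2C - Y n)`.  The law of the link is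
`c² (γ(w (n+1)) - γ(1/w n)) = 2 ζ n`, `c² = cosh(eκ/2)^(2/e)`.
-/

namespace Pool.Agent.helper31.EQ.W

open Complex

noncomputable section

/-- `c²`. -/
def c2 (e κ : ℝ) : ℝ := Real.cosh (e * κ / 2) ^ (2 / e)

/-- `γ` on the positive reals. -/
def gr (e w : ℝ) : ℝ := ((1 + w ^ (-e)) / 2) ^ (-(2 / e))

/-- `γ(w)` for complex `w`, used for `|w| > 1`. -/
def gl (e : ℝ) (w : ℂ) : ℂ := ((1 + w ^ (-(e : ℂ))) / 2) ^ (-((2 / e : ℝ) : ℂ))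

/-- `γ(x) = x² ((1 + x^e)/2)^(-2/e)` for complex `x`, used for `|x| < 1`. -/
def gs (e : ℝ) (x : ℂ) : ℂ := x ^ 2 * ((1 + x ^ (e : ℂ)) / 2) ^ (-((2 / e : ℝ) : ℂ))

/-- `γ(exp (-p))`. -/
def gp (e : ℝ) (p : ℂ) : ℂ := exp (-p) * cosh (e * p / 2) ^ (-((2 / e : ℝ) : ℂ))

/-- The position after `Y` if the next node has deviation `d`. -/
def nxt (κ : ℝ) (Y d : ℂ) : ℂ := d + (1 - d) / (2 * (Real.cosh κ : ℂ) - Y)

/-- Positions of the links for the unknowns `x`: `d 0 = c0 p + r0 p * x 0`, `Y 0 = exp (-p) + d 0`,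
`d (n+1) = r (Y n) * x (n+1)`. -/
def pos (κ : ℝ) (c0 r0 r : ℂ → ℂ) (p : ℂ) (x : ℕ → ℂ) : ℕ → ℂ
  | 0 => exp (-p) + (c0 p + r0 p * x 0)
  | n + 1 => nxt κ (pos κ c0 r0 r p x n) (r (pos κ c0 r0 r p x n) * x (n + 1))

/-- Deviations of the nodes. -/
def dev (κ : ℝ) (c0 r0 r : ℂ → ℂ) (p : ℂ) (x : ℕ → ℂ) : ℕ → ℂ
  | 0 => c0 p + r0 p * x 0
  | n + 1 => r (pos κ c0 r0 r p x n) * x (n + 1)

/-- `w (n+1)` for the link at `Y` whose right end has deviation `d`. -/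
def wn (κ : ℝ) (Y d : ℂ) : ℂ := (2 * (Real.cosh κ : ℂ) - Y) / (1 - d)

/-- The law of link `0`, whose left end is `w 0 = exp p` (`d0, d1` deviations of the nodes `0, 1`). -/
def F0 (e κ : ℝ) (p d0 d1 : ℂ) : ℂ :=
  (c2 e κ : ℂ) * gl e (wn κ (exp (-p) + d0) d1) - (c2 e κ : ℂ) * gp e p -
    2 * ((Real.cosh κ : ℂ) - (exp (-p) + d0))

/-- The law of a link at `Y` with deviations `d`, `d'` of its ends. -/
def FW (e κ : ℝ) (Y d d' : ℂ) : ℂ :=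
  (c2 e κ : ℂ) * gl e (wn κ Y d') - (c2 e κ : ℂ) * gs e (Y - d) - 2 * ((Real.cosh κ : ℂ) - Y)

/-- The sequence map, with preconditioners `M0 p d0 d1`, `M Y d d'`. -/
def Phi (e κ : ℝ) (c0 r0 r : ℂ → ℂ) (M0 M : ℂ → ℂ → ℂ → ℂ) (p : ℂ) (x : ℕ → ℂ) : ℕ → ℂ
  | 0 => (r0 p * x 0 - M0 p (dev κ c0 r0 r p x 0) (dev κ c0 r0 r p x 1) *
      F0 e κ p (dev κ c0 r0 r p x 0) (dev κ c0 r0 r p x 1)) / r0 p
  | n + 1 => (dev κ c0 r0 r p x (n + 1) -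
      M (pos κ c0 r0 r p x (n + 1)) (dev κ c0 r0 r p x (n + 1)) (dev κ c0 r0 r p x (n + 2)) *
      FW e κ (pos κ c0 r0 r p x (n + 1)) (dev κ c0 r0 r p x (n + 1))
        (dev κ c0 r0 r p x (n + 2))) / r (pos κ c0 r0 r p x n)

/-- Gaps of a real orbit. -/
def Dl (e κ : ℝ) (w ζ : ℕ → ℝ) : ℕ → ℝ
  | 0 => 1 / Real.sqrt (c2 e κ / (2 * (Real.cosh κ - 1)) * gr e (1 / w 0) -
      ((ζ 0 - (Real.cosh κ - 1)) / (2 * (Real.cosh κ - 1))) ^ 2)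
  | n + 1 => w (n + 1) * Dl e κ w ζ n

/-- Slopes of a real orbit. -/
def sl (e κ : ℝ) (w ζ : ℕ → ℝ) (n : ℕ) : ℝ :=
  Dl e κ w ζ n * (ζ n - (Real.cosh κ - 1)) / (2 * (Real.cosh κ - 1))

end

end Pool.Agent.helper31.EQ.W
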