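import Pool.Agent.helper31.EQ.Defs
import Pool.Agent.helper31.EQ.W.Defs

/-!
# EQ-W1: real orbits of the W-scheme
-/

namespace Pool.Agent.helper31.EQ.W

open Filter Topology Pool.Agent.helper31.EQ

/-- `γ(1/w) = γ(w)/w²`. -/
theorem gr_inv {e w : ℝ} (he : 0 < e) (hw : 0 < w) : gr e (1 / w) = gr e w / w ^ 2 := by
  unfold gr
  have h1 : (1 / w) ^ (-e) = w ^ e := by
    rw [one_div, Real.inv_rpow hw.le, Real.rpow_neg hw.le, inv_inv]
  have h2 : (1 + w ^ e) / 2 = w ^ e * ((1 + w ^ (-e)) / 2) := by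
    rw [Real.rpow_neg hw.le]
    have : w ^ e ≠ 0 := (Real.rpow_pos_of_pos hw e).ne'
    field_simp
    ring
  have h3 : 0 ≤ (1 + w ^ (-e)) / 2 := by
    have := Real.rpow_pos_of_pos hw (-e)
    positivity
  rw [h1, h2, Real.mul_rpow (Real.rpow_pos_of_pos hw e).le h3, ← Real.rpow_mul hw.le]
  have h4 : e * -(2 / e) = -((2 : ℕ) : ℝ) := by
    push_cast
    field_simp
  rw [h4, Real.rpow_neg hw.le, Real.rpow_natCast]
  field_simp

theorem gr_pos {e w : ℝ} (hw : 0 < w) : 0 < gr e w := by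
  unfold gr
  have := Real.rpow_pos_of_pos hw (-e)
  positivity

/-- `γ(w) → exp κ / c²`... at `w = exp κ`; not needed elsewhere.  `gi` inverts `γ`:
for real `g > 0` with `2 - g^(e/2) > 0` the number `x = g^(1/2) (2 - g^(e/2))^(-1/e)` is positive and
`γ(x) = g`.  Proof: `x^e = g^(e/2)/(2 - g^(e/2))`, so `x^(-e) = (2 - g^(e/2))/g^(e/2)`,
`(1 + x^(-e))/2 = g^(-e/2)` and `γ(x) = (g^(-e/2))^(-2/e) = g`. -/
theorem gr_gi {e g : ℝ} (he : 0 < e) (hg : 0 < g) (h2 : 0 < 2 - g ^ (e / 2)) :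
    0 < g ^ (1 / 2 : ℝ) * (2 - g ^ (e / 2)) ^ (-(1 / e)) ∧
      gr e (g ^ (1 / 2 : ℝ) * (2 - g ^ (e / 2)) ^ (-(1 / e))) = g := by
  have hx : 0 < g ^ (1 / 2 : ℝ) * (2 - g ^ (e / 2)) ^ (-(1 / e)) := by positivity
  refine ⟨hx, ?_⟩
  unfold gr
  have h3 : (g ^ (1 / 2 : ℝ) * (2 - g ^ (e / 2)) ^ (-(1 / e))) ^ (-e) =
      g ^ (-(e / 2)) * (2 - g ^ (e / 2)) := by
    rw [Real.mul_rpow (by positivity) (by positivity), ← Real.rpow_mul hg.le,
      ← Real.rpow_mul h2.le]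
    have e1 : (1 / 2 : ℝ) * -e = -(e / 2) := by ring
    have e2 : -(1 / e) * -e = 1 := by field_simp
    rw [e1, e2, Real.rpow_one]
  have h4 : (1 + g ^ (-(e / 2)) * (2 - g ^ (e / 2))) / 2 = g ^ (-(e / 2)) := by
    have h5 : g ^ (-(e / 2)) * g ^ (e / 2) = 1 := by
      rw [← Real.rpow_add hg]
      simp
    rw [mul_sub, h5]
    ring
  rw [h3, h4, ← Real.rpow_mul hg.le]
  have e3 : -(e / 2) * -(2 / e) = 1 := by field_simp
  rw [e3, Real.rpow_one]

/-- `γ(exp(-p)) = exp(-p) cosh(ep/2)^(-2/e)`: `1 + exp(ep) = 2 exp(ep/2) cosh(ep/2)`. -/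
theorem gr_exp {e : ℝ} (he : 0 < e) (p : ℝ) :
    gr e (Real.exp (-p)) = Real.exp (-p) * Real.cosh (e * p / 2) ^ (-(2 / e)) := by
  unfold gr
  have h1 : Real.exp (-p) ^ (-e) = Real.exp (e * p) := by
    rw [← Real.exp_mul]
    congr 1
    ring
  have h2 : (1 + Real.exp (e * p)) / 2 = Real.exp (e * p / 2) * Real.cosh (e * p / 2) := by
    rw [Real.cosh_eq, mul_div_assoc', mul_add, ← Real.exp_add, ← Real.exp_add]
    congr 1
    have e1 : e * p / 2 + e * p / 2 = e * p := by ring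
    have e2 : e * p / 2 + -(e * p / 2) = 0 := by ring
    rw [e1, e2, Real.exp_zero]
    ring
  rw [h1, h2, Real.mul_rpow (Real.exp_pos _).le (Real.cosh_pos _).le, ← Real.exp_mul]
  congr 2
  field_simp

/-- `CC e (exp κ) = 2 cosh(eκ/2) (2 sinh(κ/2))^(-e) = 2 (c²/(2 (cosh κ - 1)))^(e/2)`
(`cosh κ - 1 = 2 sinh(κ/2)²`). -/
theorem CC_eq {e κ : ℝ} (he : 0 < e) (hκ : 0 < κ) :
    CC e (Real.exp κ) = 2 * (c2 e κ / (2 * (Real.cosh κ - 1))) ^ (e / 2) := by
  have hω : 2 * (Real.cosh κ - 1) = (2 * Real.sinh (κ / 2)) ^ 2 := by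
    have h1 := Real.cosh_two_mul (κ / 2)
    have h2 := Real.cosh_sq (κ / 2)
    have h3 : 2 * (κ / 2) = κ := by ring
    rw [h3] at h1
    rw [h1, h2]
    ring
  have hs : 0 < 2 * Real.sinh (κ / 2) := by
    have := Real.sinh_pos_iff.2 (half_pos hκ)
    positivity
  have hc : 0 < Real.cosh (e * κ / 2) := Real.cosh_pos _
  have hR : (c2 e κ / (2 * (Real.cosh κ - 1))) ^ (e / 2) =
      Real.cosh (e * κ / 2) / (2 * Real.sinh (κ / 2)) ^ e := by
    unfold c2
    rw [hω, Real.div_rpow (by positivity) (by positivity), ← Real.rpow_mul hc.le,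
      ← Real.rpow_natCast (2 * Real.sinh (κ / 2)) 2, ← Real.rpow_mul hs.le]
    have e1 : 2 / e * (e / 2) = 1 := by field_simp
    have e2 : ((2 : ℕ) : ℝ) * (e / 2) = e := by
      push_cast
      ring
    rw [e1, e2, Real.rpow_one]
  have h1 : 1 + Real.exp κ ^ e = 2 * (Real.exp (e * κ / 2) * Real.cosh (e * κ / 2)) := by
    rw [← Real.exp_mul, Real.cosh_eq, mul_div_assoc', mul_add, ← Real.exp_add, ← Real.exp_add]
    have e1 : e * κ / 2 + e * κ / 2 = κ * e := by ring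
    have e2 : e * κ / 2 + -(e * κ / 2) = 0 := by ring
    rw [e1, e2, Real.exp_zero]
    ring
  have h2 : Real.exp κ - 1 = Real.exp (κ / 2) * (2 * Real.sinh (κ / 2)) := by
    rw [Real.sinh_eq]
    have e3 : Real.exp (κ / 2) * (2 * ((Real.exp (κ / 2) - Real.exp (-(κ / 2))) / 2)) =
        Real.exp (κ / 2) * Real.exp (κ / 2) - Real.exp (κ / 2) * Real.exp (-(κ / 2)) := by ring
    rw [e3, ← Real.exp_add, ← Real.exp_add]
    have e1 : κ / 2 + κ / 2 = κ := by ring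
    have e2 : κ / 2 + -(κ / 2) = 0 := by ring
    rw [e1, e2, Real.exp_zero]
  unfold CC
  rw [hR, h1, h2, Real.mul_rpow (Real.exp_pos _).le hs.le, ← Real.exp_mul]
  have e1 : κ / 2 * e = e * κ / 2 := by ring
  rw [e1]
  have := (Real.exp_pos (e * κ / 2)).ne'
  have h4 : (2 * Real.sinh (κ / 2)) ^ e ≠ 0 := (Real.rpow_pos_of_pos hs e).ne'
  field_simp

/-- **The real orbit.**  With `ω = cosh κ - 1`, `c = c²/(2ω)`, `Δ n = Dl .. n`, `s n = sl .. n`:
`s (n+1) = Δ n (ζ n + ω)/(2ω)` by `hs`, so `s (n+1) - s n = Δ n > 0` and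
`s (n+1) + s n = Δ n ζ n/ω`.  By induction `1 + (s n)² = c (Δ n)² γ(1/w n)`: for `n = 0` this is the
definition of `Δ 0` (the radicand is positive by `hJ`:
`(ζ 0 - ω)² < (2 sinh(κ/2))² c² γ(1/w 0) = 2ω c² γ(1/w 0)`), and the step is
`1 + s(n+1)² = c Δ² γ(1/w n) + Δ² ζ n/ω = c Δ² γ(w (n+1)) = c (Δ w(n+1))² γ(1/w(n+1))` by `hζ` and
`gr_inv`.  Hence `(Δ n)^(-e) + (Δ (n+1))^(-e) = (Δ n)^(-e) (1 + w(n+1)^(-e)) = F(s (n+1))` by
`CC_eq`.  At the node `0`: `(Δ 0)^(-e)/F(s 0) = 1/(1 + (w 0)^e)`.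
`Δ n → ∞` since `w n → exp κ > 1` (`hlim`), `s n/Δ n → (sinh κ - ω)/(2ω) > 0`, so `s n → ∞`, and
`s(n+1)/s n = w(n+1) · (ζ(n+1) - ω)/(ζ n - ω) → exp κ`. -/
theorem orbit_of_w {e κ : ℝ} (he : 1 < e) (hκ : 0 < κ) {w ζ : ℕ → ℝ} (hw0 : 0 < w 0)
    (hw : ∀ n, 1 < w (n + 1))
    (hζ : ∀ n, c2 e κ * (gr e (w (n + 1)) - gr e (1 / w n)) = 2 * ζ n)
    (hs : ∀ n, ζ n + (Real.cosh κ - 1) = w (n + 1) * (ζ (n + 1) - (Real.cosh κ - 1)))
    (hJ : |ζ 0 - (Real.cosh κ - 1)| <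
      2 * Real.sinh (κ / 2) * Real.cosh (e * κ / 2) ^ (1 / e) * Real.sqrt (gr e (1 / w 0)))
    (hlim : Tendsto w atTop (𝓝 (Real.exp κ))) (hlimζ : Tendsto ζ atTop (𝓝 (Real.sinh κ))) :
    (∀ n, sl e κ w ζ n < sl e κ w ζ (n + 1)) ∧
    (∀ n, (sl e κ w ζ (n + 1) - sl e κ w ζ n) ^ (-e) +
      (sl e κ w ζ (n + 2) - sl e κ w ζ (n + 1)) ^ (-e) =
        FF e (Real.exp κ) (sl e κ w ζ (n + 1))) ∧
    Tendsto (sl e κ w ζ) atTop atTop ∧
    Tendsto (fun n => sl e κ w ζ (n + 1) / sl e κ w ζ n) atTop (𝓝 (Real.exp κ)) ∧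
    (sl e κ w ζ 1 - sl e κ w ζ 0) ^ (-e) / FF e (Real.exp κ) (sl e κ w ζ 0) =
      1 / (1 + w 0 ^ e) ∧
    sl e κ w ζ 0 / Real.sqrt (1 + sl e κ w ζ 0 ^ 2) =
      (ζ 0 - (Real.cosh κ - 1)) /
        (2 * Real.sinh (κ / 2) * Real.cosh (e * κ / 2) ^ (1 / e) * Real.sqrt (gr e (1 / w 0))) := by
  have he0 : 0 < e := by linarith
  set ω := Real.cosh κ - 1 with hωd
  have hω2 : 2 * ω = (2 * Real.sinh (κ / 2)) ^ 2 := by
    have h1 := Real.cosh_two_mul (κ / 2)
    have h2 := Real.cosh_sq (κ / 2)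
    have h3 : 2 * (κ / 2) = κ := by ring
    rw [h3] at h1
    rw [hωd, h1, h2]
    ring
  have hsh : 0 < 2 * Real.sinh (κ / 2) := by
    have := Real.sinh_pos_iff.2 (half_pos hκ)
    positivity
  have hω : 0 < ω := by
    have : 0 < (2 * Real.sinh (κ / 2)) ^ 2 := by positivity
    linarith
  have hch : 0 < Real.cosh (e * κ / 2) := Real.cosh_pos _
  have hc2 : 0 < c2 e κ := by
    unfold c2
    positivity
  have hc2' : (Real.cosh (e * κ / 2) ^ (1 / e)) ^ 2 = c2 e κ := by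
    unfold c2
    rw [← Real.rpow_natCast, ← Real.rpow_mul hch.le]
    congr 1
    push_cast
    ring
  set c := c2 e κ / (2 * ω) with hcd
  have hc : 0 < c := by positivity
  have hwp : ∀ n, 0 < w n := by
    intro n
    rcases n with _ | n
    · exact hw0
    · linarith [hw n]
  have hg : ∀ n, 0 < gr e (w n) := fun n => gr_pos (hwp n)
  have hg' : ∀ n, 0 < gr e (1 / w n) := fun n => gr_pos (by have := hwp n; positivity)
  -- the radicand
  have hrad : 0 < c * gr e (1 / w 0) - ((ζ 0 - ω) / (2 * ω)) ^ 2 := by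
    have h1 : (ζ 0 - ω) ^ 2 < 2 * ω * c2 e κ * gr e (1 / w 0) := by
      have h2 : |ζ 0 - ω| ^ 2 < (2 * Real.sinh (κ / 2) * Real.cosh (e * κ / 2) ^ (1 / e) *
          Real.sqrt (gr e (1 / w 0))) ^ 2 :=
        pow_lt_pow_left₀ hJ (abs_nonneg _) (by norm_num)
      rw [sq_abs, mul_pow, mul_pow, hc2', Real.sq_sqrt (hg' 0).le, ← hω2] at h2
      exact h2
    have h3 : c * gr e (1 / w 0) - ((ζ 0 - ω) / (2 * ω)) ^ 2 =
        (2 * ω * c2 e κ * gr e (1 / w 0) - (ζ 0 - ω) ^ 2) / (2 * ω) ^ 2 := by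
      rw [hcd]
      field_simp
    rw [h3]
    exact div_pos (by linarith) (by positivity)
  set D : ℕ → ℝ := Dl e κ w ζ with hD
  have hD0 : D 0 = 1 / Real.sqrt (c * gr e (1 / w 0) - ((ζ 0 - ω) / (2 * ω)) ^ 2) := rfl
  have hDs : ∀ n, D (n + 1) = w (n + 1) * D n := fun n => rfl
  set S : ℕ → ℝ := sl e κ w ζ with hS
  have hSn : ∀ n, S n = D n * (ζ n - ω) / (2 * ω) := fun n => rfl
  have hDpos : ∀ n, 0 < D n := by
    intro n
    induction n with
    | zero =>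
      rw [hD0]
      have := Real.sqrt_pos.2 hrad
      positivity
    | succ n ih =>
      rw [hDs]
      exact mul_pos (hwp _) ih
  have hSs : ∀ n, S (n + 1) = D n * (ζ n + ω) / (2 * ω) := by
    intro n
    rw [hSn, hDs, hs n]
    ring
  have hdiff : ∀ n, S (n + 1) - S n = D n := by
    intro n
    rw [hSs, hSn]
    field_simp
    ring
  have hζ' : ∀ n, ζ n / ω = c * (gr e (w (n + 1)) - gr e (1 / w n)) := by
    intro n
    have h1 := hζ n
    rw [hcd]
    field_simp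
    linarith
  have hstep : ∀ n, 1 + S n ^ 2 = c * D n ^ 2 * gr e (1 / w n) →
      1 + S (n + 1) ^ 2 = c * D n ^ 2 * gr e (w (n + 1)) := by
    intro n hn
    have h1 : S (n + 1) ^ 2 - S n ^ 2 = D n ^ 2 * (ζ n / ω) := by
      rw [hSs, hSn]
      field_simp
      ring
    rw [hζ'] at h1
    linear_combination h1 + hn
  have hP : ∀ n, 1 + S n ^ 2 = c * D n ^ 2 * gr e (1 / w n) := by
    intro n
    induction n with
    | zero =>
      have h1 : D 0 ^ 2 * (c * gr e (1 / w 0) - ((ζ 0 - ω) / (2 * ω)) ^ 2) = 1 := by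
        rw [hD0, div_pow, one_pow, Real.sq_sqrt hrad.le, one_div, inv_mul_cancel₀ hrad.ne']
      rw [hSn]
      linear_combination -h1
    | succ n ih =>
      rw [hstep n ih, hDs, gr_inv he0 (hwp _)]
      have := (hwp (n + 1)).ne'
      field_simp
  have hFF : ∀ (n : ℕ) (x v : ℝ), 0 < v → 1 + x ^ 2 = c * D n ^ 2 * gr e v →
      FF e (Real.exp κ) x = D n ^ (-e) * (1 + v ^ (-e)) := by
    intro n x v hv hx
    unfold FF
    have hgv := gr_pos (e := e) hv
    have hv' := Real.rpow_pos_of_pos hv (-e)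
    rw [CC_eq he0 hκ, hx, Real.mul_rpow (by have := hDpos n; positivity) hgv.le,
      Real.mul_rpow hc.le (by positivity)]
    have h1 : (c2 e κ / (2 * (Real.cosh κ - 1))) ^ (e / 2) * c ^ (-e / 2) = 1 := by
      change c ^ (e / 2) * c ^ (-e / 2) = 1
      rw [← Real.rpow_add hc]
      have : e / 2 + -e / 2 = 0 := by ring
      rw [this, Real.rpow_zero]
    have h2 : (D n ^ 2) ^ (-e / 2) = D n ^ (-e) := by
      rw [← Real.rpow_natCast, ← Real.rpow_mul (hDpos n).le]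
      congr 1
      push_cast
      ring
    have h3 : gr e v ^ (-e / 2) = (1 + v ^ (-e)) / 2 := by
      unfold gr
      rw [← Real.rpow_mul (by positivity)]
      have : -(2 / e) * (-e / 2) = 1 := by
        field_simp
      rw [this, Real.rpow_one]
    rw [h2, h3]
    linear_combination (D n ^ (-e) * (1 + v ^ (-e))) * h1
  have hlimζ' : Tendsto (fun n => ζ n - ω) atTop (𝓝 (Real.sinh κ - ω)) :=
    hlimζ.sub_const _
  have hL : 0 < Real.sinh κ - ω := by
    have h1 : Real.sinh κ - ω = 1 - Real.exp (-κ) := by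
      rw [hωd, ← Real.cosh_sub_sinh]
      ring
    rw [h1]
    have := Real.exp_lt_one_iff.2 (neg_lt_zero.2 hκ)
    linarith
  have hDtop : Tendsto D atTop atTop := by
    have hr : ∃ r : ℝ, 1 < r ∧ r < Real.exp κ := exists_between (Real.one_lt_exp_iff.2 hκ)
    obtain ⟨r, hr1, hr2⟩ := hr
    have hev : ∀ᶠ n in atTop, r < w n := hlim.eventually (lt_mem_nhds hr2)
    obtain ⟨N, hN⟩ := eventually_atTop.1 hev
    have hgeo : ∀ k, r ^ k * D N ≤ D (N + k) := by
      intro k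
      induction k with
      | zero => simp
      | succ k ih =>
        rw [← add_assoc, hDs, pow_succ]
        have h1 : r ≤ w (N + k + 1) := (hN _ (by omega)).le
        calc r ^ k * r * D N = r * (r ^ k * D N) := by ring
          _ ≤ w (N + k + 1) * D (N + k) := by
            apply mul_le_mul h1 ih
            · have := hDpos N
              positivity
            · linarith
    have h2 : Tendsto (fun k => D (N + k)) atTop atTop := by
      refine tendsto_atTop_mono hgeo ?_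
      exact (tendsto_pow_atTop_atTop_of_one_lt hr1).atTop_mul_const (hDpos N)
    have h3 : (fun k => D (N + k)) = fun k => D (k + N) := by
      funext k
      rw [add_comm]
    rw [h3] at h2
    exact (tendsto_add_atTop_iff_nat N).1 h2
  refine ⟨fun n => ?_, fun n => ?_, ?_, ?_, ?_, ?_⟩
  · have := hdiff n
    have := hDpos n
    linarith
  · rw [hdiff, hdiff, hFF n _ _ (hwp (n + 1)) (hstep n (hP n)), hDs,
      Real.mul_rpow (hwp _).le (hDpos n).le]
    ring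
  · have h1 : S = fun n => D n * ((ζ n - ω) / (2 * ω)) := by
      funext n
      rw [hSn]
      ring
    rw [h1]
    exact hDtop.atTop_mul_pos (C := (Real.sinh κ - ω) / (2 * ω)) (by positivity)
      (hlimζ'.div_const _)
  · have h1 : (fun n => S (n + 1) / S n) =
        fun n => w (n + 1) * ((ζ (n + 1) - ω) / (ζ n - ω)) := by
      funext n
      rw [hSn, hSn, hDs]
      have h2 := (hDpos n).ne'
      rcases eq_or_ne (ζ n - ω) 0 with h3 | h3
      · simp [h3]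
      · field_simp
    rw [h1]
    have h2 : Tendsto (fun n => (ζ (n + 1) - ω) / (ζ n - ω)) atTop (𝓝 1) := by
      have h3 := (hlimζ'.comp (tendsto_add_atTop_nat 1)).div hlimζ' hL.ne'
      rw [div_self hL.ne'] at h3
      exact h3
    have h4 := (hlim.comp (tendsto_add_atTop_nat 1)).mul h2
    rw [mul_one] at h4
    exact h4
  · rw [hdiff, hFF 0 _ _ (by have := hwp 0; positivity) (hP 0)]
    have h1 : (1 / w 0) ^ (-e) = w 0 ^ e := by
      rw [one_div, Real.inv_rpow hw0.le, Real.rpow_neg hw0.le, inv_inv]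
    rw [h1]
    have h2 := (Real.rpow_pos_of_pos (hDpos 0) (-e)).ne'
    have h3 : 1 + w 0 ^ e ≠ 0 := by
      have := Real.rpow_pos_of_pos hw0 e
      positivity
    field_simp
  · rw [hP 0]
    have h1 : Real.sqrt (c * D 0 ^ 2 * gr e (1 / w 0)) =
        D 0 * (Real.sqrt c * Real.sqrt (gr e (1 / w 0))) := by
      rw [mul_right_comm, mul_comm, Real.sqrt_mul (by positivity), Real.sqrt_sq (hDpos 0).le,
        Real.sqrt_mul hc.le]
    have h2 : Real.sqrt c = Real.cosh (e * κ / 2) ^ (1 / e) / (2 * Real.sinh (κ / 2)) := by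
      rw [hcd, hω2, ← hc2', Real.sqrt_div (by positivity), Real.sqrt_sq (by positivity),
        Real.sqrt_sq hsh.le]
    have h5 : 2 * ω = (2 * Real.sinh (κ / 2)) * (2 * Real.sinh (κ / 2)) := by
      rw [hω2]
      ring
    rw [h1, h2, hSn, h5]
    have h3 := (hDpos 0).ne'
    have h4 : Real.sqrt (gr e (1 / w 0)) ≠ 0 := (Real.sqrt_pos.2 (hg' 0)).ne'
    have h6 : Real.cosh (e * κ / 2) ^ (1 / e) ≠ 0 := (Real.rpow_pos_of_pos hch _).ne'
    have h7 : Real.sinh (κ / 2) ≠ 0 := by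
      intro h
      rw [h] at hsh
      simp at hsh
    field_simp

end Pool.Agent.helper31.EQ.W
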