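import Pool.Agent.helper31.EQ.WTrap
import Pool.Agent.helper31.EQ.W.Alg

/-!
# EQ-W2: the interface of the W-scheme
-/

namespace Pool.Agent.helper31.EQ.W

open Set Metric Filter Topology Complex

/-- Everything the W-scheme needs for one pair `(e, κ)`. -/
structure WData (e κ : ℝ) where
  θ : ℝ
  hθ0 : 0 ≤ θ
  hθ1 : θ < 1
  /-- start parameters `p = log (w 0)` -/
  D : Set ℂ
  isOpen_D : IsOpen D
  /-- positions of link `0` / of the links `n ≥ 1` -/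
  Ω0 : Set ℂ
  Ω : Set ℂ
  /-- `d 0` is in the disc with centre `c0 p` and radius `‖r0 p‖`, `‖r (Y n)‖` is the radius of
  `d (n+1)` -/
  c0 : ℂ → ℂ
  r0 : ℂ → ℂ
  r : ℂ → ℂ
  /-- preconditioners of link `0` and of the links `n ≥ 1` -/
  M0 : ℂ → ℂ → ℂ → ℂ
  M : ℂ → ℂ → ℂ → ℂ
  c0_diff : DifferentiableOn ℂ c0 D
  r0_diff : DifferentiableOn ℂ r0 D
  r_diff : ∀ Y ∈ Ω0 ∪ Ω, DifferentiableAt ℂ r Y
  M0_diff : ∀ p ∈ D, ∀ x0 x1 : ℂ, ‖x0‖ ≤ 1 → ‖x1‖ ≤ 1 →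
    DifferentiableAt ℂ (fun q : ℂ × ℂ × ℂ => M0 q.1 q.2.1 q.2.2)
      (p, c0 p + r0 p * x0, r (exp (-p) + (c0 p + r0 p * x0)) * x1)
  M_diff : ∀ Y ∈ Ω0 ∪ Ω, ∀ x x' : ℂ, ‖x‖ ≤ 1 → ‖x'‖ ≤ 1 →
    DifferentiableAt ℂ (fun q : ℂ × ℂ × ℂ => M q.1 q.2.1 q.2.2)
      (nxt κ Y (r Y * x), r Y * x, r (nxt κ Y (r Y * x)) * x')
  r0_ne : ∀ p ∈ D, r0 p ≠ 0
  r_ne : ∀ Y ∈ Ω0 ∪ Ω, r Y ≠ 0
  M0_ne : ∀ p ∈ D, ∀ x0 x1 : ℂ, ‖x0‖ ≤ 1 → ‖x1‖ ≤ 1 →
    M0 p (c0 p + r0 p * x0) (r (exp (-p) + (c0 p + r0 p * x0)) * x1) ≠ 0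
  M_ne : ∀ Y ∈ Ω0 ∪ Ω, ∀ x x' : ℂ, ‖x‖ ≤ 1 → ‖x'‖ ≤ 1 →
    M (nxt κ Y (r Y * x)) (r Y * x) (r (nxt κ Y (r Y * x)) * x') ≠ 0
  c0_real : ∀ p : ℝ, (p : ℂ) ∈ D → (c0 p).im = 0
  r0_real : ∀ p : ℝ, (p : ℂ) ∈ D → (r0 p).im = 0
  r_real : ∀ Y : ℝ, (Y : ℂ) ∈ Ω0 ∪ Ω → (r Y).im = 0
  /-- reality of the preconditioners for real arguments in the trap -/
  M0_real : ∀ p : ℝ, (p : ℂ) ∈ D → ∀ x0 x1 : ℝ, |x0| ≤ 1 → |x1| ≤ 1 →
    (M0 p (c0 p + r0 p * x0) (r (exp (-p) + (c0 p + r0 p * x0)) * x1)).im = 0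
  M_real : ∀ Y : ℝ, (Y : ℂ) ∈ Ω0 ∪ Ω → ∀ x x' : ℝ, |x| ≤ 1 → |x'| ≤ 1 →
    (M (nxt κ Y (r Y * x)) (r Y * x) (r (nxt κ Y (r Y * x)) * x')).im = 0
  cosh_slit : ∀ p ∈ D, cosh (e * p / 2) ∈ slitPlane
  inv0 : ∀ p ∈ D, ∀ x : ℂ, ‖x‖ ≤ 1 → exp (-p) + (c0 p + r0 p * x) ∈ Ω0
  inv : ∀ Y ∈ Ω0 ∪ Ω, ∀ x : ℂ, ‖x‖ ≤ 1 → nxt κ Y (r Y * x) ∈ Ω
  den_ne : ∀ Y ∈ Ω0 ∪ Ω, 2 * (Real.cosh κ : ℂ) - Y ≠ 0
  one_sub_ne : ∀ Y ∈ Ω0 ∪ Ω, ∀ x : ℂ, ‖x‖ ≤ 1 → 1 - r Y * x ≠ 0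
  w_slit : ∀ Y ∈ Ω0 ∪ Ω, ∀ x : ℂ, ‖x‖ ≤ 1 → wn κ Y (r Y * x) ∈ slitPlane
  w_norm : ∀ Y ∈ Ω0 ∪ Ω, ∀ x : ℂ, ‖x‖ ≤ 1 → 1 < ‖wn κ Y (r Y * x)‖
  /-- closing at link `0` -/
  close0 : ∀ p ∈ D, ∀ x0 x1 : ℂ, ‖x0‖ ≤ 1 → ‖x1‖ ≤ 1 →
    ‖r0 p * x0 - M0 p (c0 p + r0 p * x0) (r (exp (-p) + (c0 p + r0 p * x0)) * x1) *
      F0 e κ p (c0 p + r0 p * x0) (r (exp (-p) + (c0 p + r0 p * x0)) * x1)‖ ≤ θ * ‖r0 p‖
  /-- closing at the links `n ≥ 1`: `Y` is the position of the previous link -/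
  close : ∀ Y ∈ Ω0 ∪ Ω, ∀ x x' : ℂ, ‖x‖ ≤ 1 → ‖x'‖ ≤ 1 →
    ‖r Y * x - M (nxt κ Y (r Y * x)) (r Y * x) (r (nxt κ Y (r Y * x)) * x') *
      FW e κ (nxt κ Y (r Y * x)) (r Y * x) (r (nxt κ Y (r Y * x)) * x')‖ ≤ θ * ‖r Y‖
  /-- real start parameters: the slope of node `0` is well defined -/
  real_small : ∀ p : ℝ, (p : ℂ) ∈ D →
    (2 * Real.sinh (|p| / 2) + Real.exp (p / 2) * (‖c0 p‖ + ‖r0 p‖)) *
      Real.cosh (e * p / 2) ^ (1 / e) < 2 * Real.sinh (κ / 2) * Real.cosh (e * κ / 2) ^ (1 / e)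
  /-- real positions converge to `exp (-κ)` -/
  lam : ℝ
  hlam0 : 0 ≤ lam
  hlam1 : lam < 1
  contr : ∀ Y : ℝ, (Y : ℂ) ∈ Ω0 ∪ Ω → ∀ x : ℝ, |x| ≤ 1 →
    |(nxt κ Y (r Y * x)).re - Real.exp (-κ)| ≤ lam * |Y - Real.exp (-κ)|
  B : ℝ
  r_le : ∀ Y : ℝ, (Y : ℂ) ∈ Ω0 ∪ Ω → ‖r Y‖ ≤ B * |Y - Real.exp (-κ)|
  η : ℝ
  hη : 0 < η
  seg : ∀ y : ℝ, |y| ≤ η → ((y : ℂ) * I) ∈ D
  δ : ℝ
  hδ : 0 < δ
  segr : ∀ y : ℝ, |y| ≤ δ → (y : ℂ) ∈ D
  d0_small : ‖c0 (δ : ℂ)‖ + ‖r0 (δ : ℂ)‖ < 1 - Real.exp (-δ)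
  d0_small' : ‖c0 ((-δ : ℝ) : ℂ)‖ + ‖r0 ((-δ : ℝ) : ℂ)‖ < Real.exp δ - 1
  /-- the test point `p = iη`, `w 0 = exp (iη)` -/
  test : ∀ x : ℕ → ℂ, (∀ n, ‖x n‖ ≤ 1) →
    (∀ n, x n = Phi e κ c0 r0 r M0 M ((η : ℂ) * I) x n) →
    (exp ((η : ℂ) * I / 2) * (c0 ((η : ℂ) * I) + r0 ((η : ℂ) * I) * x 0)).re ≠ 0

variable {e κ : ℝ}

/-- Positions stay in `Ω0`, `Ω`. -/
theorem WData.pos_mem (W : WData e κ) {p : ℂ} (hp : p ∈ W.D) {x : ℕ → ℂ} (hx : ∀ n, ‖x n‖ ≤ 1) :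
    pos κ W.c0 W.r0 W.r p x 0 ∈ W.Ω0 ∧ ∀ n, pos κ W.c0 W.r0 W.r p x (n + 1) ∈ W.Ω := by
  have h0 : pos κ W.c0 W.r0 W.r p x 0 ∈ W.Ω0 := W.inv0 p hp (x 0) (hx 0)
  refine ⟨h0, fun n => ?_⟩
  induction n with
  | zero => exact W.inv _ (Or.inl h0) (x 1) (hx 1)
  | succ n ih => exact W.inv _ (Or.inr ih) (x (n + 2)) (hx _)

/-- All positions are in `Ω0 ∪ Ω`. -/
private theorem Data_mem (W : WData e κ) {p : ℂ} (hp : p ∈ W.D) {x : ℕ → ℂ} (hx : ∀ n, ‖x n‖ ≤ 1)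
    (n : ℕ) : pos κ W.c0 W.r0 W.r p x n ∈ W.Ω0 ∪ W.Ω := by
  rcases n with _ | n
  · exact Or.inl (W.pos_mem hp hx).1
  · exact Or.inr ((W.pos_mem hp hx).2 n)

private theorem Data_half_slit {z : ℂ} (h : ‖z‖ < 1) : (1 + z) / 2 ∈ slitPlane := by
  rw [Complex.mem_slitPlane_iff]
  left
  have h4 := (abs_lt.1 ((Complex.abs_re_le_norm z).trans_lt h)).1
  have h5 : ((1 + z) / 2).re = (1 + z.re) / 2 := by
    have : (1 + z) / 2 = (1 + z) / ((2 : ℝ) : ℂ) := by push_cast; rfl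
    rw [this, Complex.div_ofReal_re, Complex.add_re, Complex.one_re]
  rw [h5]
  linarith

private theorem Data_gp_diff {e : ℝ} {p : ℂ} (hp : cosh (e * p / 2) ∈ slitPlane) :
    DifferentiableAt ℂ (gp e) p := by
  have h1 : DifferentiableAt ℂ (fun p : ℂ => exp (-p)) p := by fun_prop
  have h2 : DifferentiableAt ℂ (fun p : ℂ => cosh (e * p / 2)) p := by fun_prop
  exact h1.mul (h2.cpow_const hp)

private theorem Data_wn_diff {f g : ℂ → ℂ} {z : ℂ} (hf : DifferentiableAt ℂ f z)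
    (hg : DifferentiableAt ℂ g z) (h : 1 - g z ≠ 0) :
    DifferentiableAt ℂ (fun z => wn κ (f z) (g z)) z :=
  (hf.const_sub _).div (hg.const_sub 1) h

private theorem Data_at {O : Set ℂ} {τ : ℂ → ℂ} (hO : IsOpen O) (hτ : DifferentiableOn ℂ τ O)
    {z : ℂ} (hz : z ∈ O) : DifferentiableAt ℂ τ z :=
  (hτ z hz).differentiableAt (hO.mem_nhds hz)

private theorem Data_pos_diff (W : WData e κ) {O : Set ℂ} {τ : ℂ → ℂ} {x : ℂ → ℕ → ℂ}
    (hO : IsOpen O) (hτ : DifferentiableOn ℂ τ O) (hm : MapsTo τ O W.D)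
    (hx : ∀ n, DifferentiableOn ℂ (fun z => x z n) O)
    (hb : ∀ z ∈ O, ∀ n, ‖x z n‖ ≤ 1) {z : ℂ} (hz : z ∈ O) (n : ℕ) :
    DifferentiableAt ℂ (fun z => pos κ W.c0 W.r0 W.r (τ z) (x z) n) z := by
  induction n with
  | zero =>
    have h1 : DifferentiableAt ℂ (fun z => exp (-(τ z))) z := (Data_at hO hτ hz).neg.cexp
    have h2 : DifferentiableAt ℂ (fun z => W.r0 (τ z)) z :=
      DifferentiableAt.comp z (Data_at W.isOpen_D W.r0_diff (hm hz)) (Data_at hO hτ hz)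
    have h3 : DifferentiableAt ℂ (fun z => W.c0 (τ z)) z :=
      DifferentiableAt.comp z (Data_at W.isOpen_D W.c0_diff (hm hz)) (Data_at hO hτ hz)
    exact h1.add (h3.add (h2.mul (Data_at hO (hx 0) hz)))
  | succ n ih =>
    have hY := Data_mem W (hm hz) (hb z hz) n
    have h2 : DifferentiableAt ℂ (fun z => W.r (pos κ W.c0 W.r0 W.r (τ z) (x z) n)) z :=
      DifferentiableAt.comp z (W.r_diff _ hY) ih
    have h3 := h2.mul (Data_at hO (hx (n + 1)) hz)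
    exact h3.add ((h3.const_sub 1).div (ih.const_sub _) (W.den_ne _ hY))

private theorem Data_dev_diff (W : WData e κ) {O : Set ℂ} {τ : ℂ → ℂ} {x : ℂ → ℕ → ℂ}
    (hO : IsOpen O) (hτ : DifferentiableOn ℂ τ O) (hm : MapsTo τ O W.D)
    (hx : ∀ n, DifferentiableOn ℂ (fun z => x z n) O)
    (hb : ∀ z ∈ O, ∀ n, ‖x z n‖ ≤ 1) {z : ℂ} (hz : z ∈ O) (n : ℕ) :
    DifferentiableAt ℂ (fun z => dev κ W.c0 W.r0 W.r (τ z) (x z) n) z := by
  rcases n with _ | n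
  · have h2 : DifferentiableAt ℂ (fun z => W.r0 (τ z)) z :=
      DifferentiableAt.comp z (Data_at W.isOpen_D W.r0_diff (hm hz)) (Data_at hO hτ hz)
    have h3 : DifferentiableAt ℂ (fun z => W.c0 (τ z)) z :=
      DifferentiableAt.comp z (Data_at W.isOpen_D W.c0_diff (hm hz)) (Data_at hO hτ hz)
    exact h3.add (h2.mul (Data_at hO (hx 0) hz))
  · have hY := Data_mem W (hm hz) (hb z hz) n
    have h2 : DifferentiableAt ℂ (fun z => W.r (pos κ W.c0 W.r0 W.r (τ z) (x z) n)) z :=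
      DifferentiableAt.comp z (W.r_diff _ hY) (Data_pos_diff W hO hτ hm hx hb hz n)
    exact h2.mul (Data_at hO (hx (n + 1)) hz)

/-- Self-map: `close0`, `close`, division by `r0 p`, `r Y`. -/
theorem WData.maps (W : WData e κ) {p : ℂ} (hp : p ∈ W.D) {x : ℕ → ℂ} (hx : ∀ n, ‖x n‖ ≤ 1)
    (n : ℕ) : ‖Phi e κ W.c0 W.r0 W.r W.M0 W.M p x n‖ ≤ W.θ := by
  rcases n with _ | n
  · show ‖(W.r0 p * x 0 - W.M0 p (dev κ W.c0 W.r0 W.r p x 0) (dev κ W.c0 W.r0 W.r p x 1) *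
      F0 e κ p (dev κ W.c0 W.r0 W.r p x 0) (dev κ W.c0 W.r0 W.r p x 1)) / W.r0 p‖ ≤ W.θ
    rw [norm_div, div_le_iff₀ (norm_pos_iff.2 (W.r0_ne p hp))]
    exact W.close0 p hp (x 0) (x 1) (hx 0) (hx 1)
  · show ‖(dev κ W.c0 W.r0 W.r p x (n + 1) -
      W.M (pos κ W.c0 W.r0 W.r p x (n + 1)) (dev κ W.c0 W.r0 W.r p x (n + 1))
        (dev κ W.c0 W.r0 W.r p x (n + 2)) *
      FW e κ (pos κ W.c0 W.r0 W.r p x (n + 1)) (dev κ W.c0 W.r0 W.r p x (n + 1))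
        (dev κ W.c0 W.r0 W.r p x (n + 2))) / W.r (pos κ W.c0 W.r0 W.r p x n)‖ ≤ W.θ
    rw [norm_div, div_le_iff₀ (norm_pos_iff.2 (W.r_ne _ (Data_mem W hp hx n)))]
    exact W.close _ (Data_mem W hp hx n) (x (n + 1)) (x (n + 2)) (hx _) (hx _)

/-- `gl e w` is differentiable where `w ∈ slitPlane`, `1 < ‖w‖`: then `‖w^(-e)‖ = ‖w‖^(-e) < 1`, so
`Re (1 + w^(-e)) > 0`. -/
theorem differentiableAt_gl {e : ℝ} (he : 0 < e) {w : ℂ} (h : w ∈ slitPlane) (h1 : 1 < ‖w‖) :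
    DifferentiableAt ℂ (gl e) w := by
  have h1 : ‖w ^ (-(e : ℂ))‖ < 1 := by
    have h0 : (-(e : ℂ)) = ((-e : ℝ) : ℂ) := by push_cast; rfl
    rw [h0, Complex.norm_cpow_real]
    exact Real.rpow_lt_one_of_one_lt_of_neg h1 (by linarith)
  have h2 : ((1 + w ^ (-(e : ℂ))) / 2) ∈ slitPlane := Data_half_slit h1
  have h5 : DifferentiableAt ℂ (fun w : ℂ => (1 + w ^ (-(e : ℂ))) / 2) w :=
    ((differentiableAt_const 1).add (differentiableAt_id.cpow_const h)).div_const 2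
  exact h5.cpow_const h2

/-- `gs e y` is differentiable where `y ∈ slitPlane`, `‖y‖ < 1`. -/
theorem differentiableAt_gs {e : ℝ} (he : 0 < e) {y : ℂ} (h : y ∈ slitPlane) (h1 : ‖y‖ < 1) :
    DifferentiableAt ℂ (gs e) y := by
  have h1 : ‖y ^ (e : ℂ)‖ < 1 := by
    rw [Complex.norm_cpow_real]
    exact Real.rpow_lt_one (norm_nonneg _) h1 he
  have h2 : ((1 + y ^ (e : ℂ)) / 2) ∈ slitPlane := Data_half_slit h1
  have h5 : DifferentiableAt ℂ (fun y : ℂ => (1 + y ^ (e : ℂ)) / 2) y :=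
    ((differentiableAt_const 1).add (differentiableAt_id.cpow_const h)).div_const 2
  have h6 : DifferentiableAt ℂ (fun y : ℂ => y ^ 2) y := by fun_prop
  exact h6.mul (h5.cpow_const h2)

/-- `nxt κ Y d - d = 1 / wn κ Y d`. -/
theorem nxt_sub {Y d : ℂ} (h1 : 2 * (Real.cosh κ : ℂ) - Y ≠ 0) (h2 : 1 - d ≠ 0) :
    nxt κ Y d - d = 1 / wn κ Y d := by
  unfold nxt wn
  rw [one_div_div]
  ring

/-- The slit-plane facts at the links `n + 1`. -/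
private theorem Data_inv (W : WData e κ) {p : ℂ} (hp : p ∈ W.D) {x : ℕ → ℂ}
    (hx : ∀ n, ‖x n‖ ≤ 1) (n : ℕ) :
    pos κ W.c0 W.r0 W.r p x (n + 1) - dev κ W.c0 W.r0 W.r p x (n + 1) =
      1 / wn κ (pos κ W.c0 W.r0 W.r p x n) (dev κ W.c0 W.r0 W.r p x (n + 1)) :=
  nxt_sub (W.den_ne _ (Data_mem W hp hx n)) (W.one_sub_ne _ (Data_mem W hp hx n) _ (hx (n + 1)))

private theorem Data_inv_slit (W : WData e κ) {p : ℂ} (hp : p ∈ W.D) {x : ℕ → ℂ}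
    (hx : ∀ n, ‖x n‖ ≤ 1) (n : ℕ) :
    pos κ W.c0 W.r0 W.r p x (n + 1) - dev κ W.c0 W.r0 W.r p x (n + 1) ∈ slitPlane ∧
      ‖pos κ W.c0 W.r0 W.r p x (n + 1) - dev κ W.c0 W.r0 W.r p x (n + 1)‖ < 1 := by
  have h1 : wn κ (pos κ W.c0 W.r0 W.r p x n) (dev κ W.c0 W.r0 W.r p x (n + 1)) ∈ slitPlane :=
    W.w_slit _ (Data_mem W hp hx n) (x (n + 1)) (hx (n + 1))
  have h2 : 1 < ‖wn κ (pos κ W.c0 W.r0 W.r p x n) (dev κ W.c0 W.r0 W.r p x (n + 1))‖ :=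
    W.w_norm _ (Data_mem W hp hx n) (x (n + 1)) (hx (n + 1))
  rw [Data_inv W hp hx n, one_div]
  refine ⟨?_, ?_⟩
  · have h0 := Complex.slitPlane_ne_zero h1
    have hn := Complex.normSq_pos.2 h0
    rw [Complex.mem_slitPlane_iff] at h1 ⊢
    rw [Complex.inv_re, Complex.inv_im]
    rcases h1 with h1 | h1
    · exact Or.inl (div_pos h1 hn)
    · exact Or.inr (div_ne_zero (neg_ne_zero.2 h1) hn.ne')
  rw [norm_inv]
  exact inv_lt_one_of_one_lt₀ h2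

/-- Holomorphy: `Y' - d = 1/w` with `w ∈ slitPlane`, `1 < ‖w‖`, so `Y' - d ∈ slitPlane` and
`‖Y' - d‖ < 1`; `differentiableAt_gl`, `differentiableAt_gs`, `M0_diff`, `M_diff`, `cosh_slit`. -/
theorem WData.hol (he : 1 < e) (W : WData e κ) :
    HolFamilyR W.D (fun _ _ => 1) (Phi e κ W.c0 W.r0 W.r W.M0 W.M) := by
  have he0 : 0 < e := by linarith
  intro O τ x hO hτ hm hx hb n z hz
  refine DifferentiableAt.differentiableWithinAt ?_
  have hb' : ∀ z ∈ O, ∀ n, ‖x z n‖ ≤ 1 := fun z hz n => hb z hz n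
  have hτz := Data_at hO hτ hz
  have hpos := fun n => Data_pos_diff W hO hτ hm hx hb' hz n
  have hdev := fun n => Data_dev_diff W hO hτ hm hx hb' hz n
  have hmem := fun n => Data_mem W (hm hz) (hb' z hz) n
  have hgl : ∀ n, DifferentiableAt ℂ (fun z => gl e (wn κ (pos κ W.c0 W.r0 W.r (τ z) (x z) n)
      (dev κ W.c0 W.r0 W.r (τ z) (x z) (n + 1)))) z := by
    intro n
    have h1 : DifferentiableAt ℂ (fun z => wn κ (pos κ W.c0 W.r0 W.r (τ z) (x z) n)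
      (dev κ W.c0 W.r0 W.r (τ z) (x z) (n + 1))) z :=
      Data_wn_diff (hpos n) (hdev (n + 1))
        (W.one_sub_ne _ (hmem n) (x z (n + 1)) (hb' z hz (n + 1)))
    exact DifferentiableAt.comp z (differentiableAt_gl he0
      (W.w_slit _ (hmem n) (x z (n + 1)) (hb' z hz (n + 1)))
      (W.w_norm _ (hmem n) (x z (n + 1)) (hb' z hz (n + 1)))) h1
  rcases n with _ | n
  · have h0 : DifferentiableAt ℂ (fun z => W.r0 (τ z)) z :=
      DifferentiableAt.comp z (Data_at W.isOpen_D W.r0_diff (hm hz)) hτz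
    have h1 : DifferentiableAt ℂ (fun z => W.M0 (τ z) (dev κ W.c0 W.r0 W.r (τ z) (x z) 0)
        (dev κ W.c0 W.r0 W.r (τ z) (x z) 1)) z :=
      DifferentiableAt.comp (g := fun q : ℂ × ℂ × ℂ => W.M0 q.1 q.2.1 q.2.2)
        (f := fun z => (τ z, dev κ W.c0 W.r0 W.r (τ z) (x z) 0, dev κ W.c0 W.r0 W.r (τ z) (x z) 1))
        z (W.M0_diff _ (hm hz) (x z 0) (x z 1) (hb' z hz 0) (hb' z hz 1))
        (hτz.prodMk ((hdev 0).prodMk (hdev 1)))
    have h2 : DifferentiableAt ℂ (fun z => gp e (τ z)) z :=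
      DifferentiableAt.comp z (Data_gp_diff (W.cosh_slit _ (hm hz))) hτz
    have h3 : DifferentiableAt ℂ (fun z => F0 e κ (τ z) (dev κ W.c0 W.r0 W.r (τ z) (x z) 0)
        (dev κ W.c0 W.r0 W.r (τ z) (x z) 1)) z :=
      (((hgl 0).const_mul (c2 e κ : ℂ)).sub (h2.const_mul (c2 e κ : ℂ))).sub
        (((hpos 0).const_sub (Real.cosh κ : ℂ)).const_mul 2)
    exact ((h0.mul (Data_at hO (hx 0) hz)).sub (h1.mul h3)).div h0 (W.r0_ne _ (hm hz))
  · have h0 : DifferentiableAt ℂ (fun z => W.r (pos κ W.c0 W.r0 W.r (τ z) (x z) n)) z :=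
      DifferentiableAt.comp z (W.r_diff _ (hmem n)) (hpos n)
    have h1 : DifferentiableAt ℂ (fun z => W.M (pos κ W.c0 W.r0 W.r (τ z) (x z) (n + 1))
        (dev κ W.c0 W.r0 W.r (τ z) (x z) (n + 1)) (dev κ W.c0 W.r0 W.r (τ z) (x z) (n + 2))) z :=
      DifferentiableAt.comp (g := fun q : ℂ × ℂ × ℂ => W.M q.1 q.2.1 q.2.2)
        (f := fun z => (pos κ W.c0 W.r0 W.r (τ z) (x z) (n + 1),
          dev κ W.c0 W.r0 W.r (τ z) (x z) (n + 1), dev κ W.c0 W.r0 W.r (τ z) (x z) (n + 2)))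
        z (W.M_diff _ (hmem n) (x z (n + 1)) (x z (n + 2)) (hb' z hz _)
        (hb' z hz _)) ((hpos (n + 1)).prodMk ((hdev (n + 1)).prodMk (hdev (n + 2))))
    have hs := Data_inv_slit W (hm hz) (hb' z hz) n
    have h2 : DifferentiableAt ℂ (fun z => gs e (pos κ W.c0 W.r0 W.r (τ z) (x z) (n + 1) -
        dev κ W.c0 W.r0 W.r (τ z) (x z) (n + 1))) z :=
      DifferentiableAt.comp z (differentiableAt_gs he0 hs.1 hs.2)
        ((hpos (n + 1)).sub (hdev (n + 1)))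
    have h3 : DifferentiableAt ℂ (fun z => FW e κ (pos κ W.c0 W.r0 W.r (τ z) (x z) (n + 1))
        (dev κ W.c0 W.r0 W.r (τ z) (x z) (n + 1)) (dev κ W.c0 W.r0 W.r (τ z) (x z) (n + 2))) z :=
      (((hgl (n + 1)).const_mul (c2 e κ : ℂ)).sub (h2.const_mul (c2 e κ : ℂ))).sub
        (((hpos (n + 1)).const_sub (Real.cosh κ : ℂ)).const_mul 2)
    exact ((hdev (n + 1)).sub (h1.mul h3)).div h0 (W.r_ne _ (hmem n))

private theorem Data_re {z : ℂ} (h : z.im = 0) : ((z.re : ℝ) : ℂ) = z :=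
  Complex.ext rfl (by rw [Complex.ofReal_im, h])

private theorem Data_gl_real {e w : ℝ} (hw : 0 < w) : gl e (w : ℂ) = ((gr e w : ℝ) : ℂ) := by
  unfold gl gr
  have h1 : (w : ℂ) ^ (-(e : ℂ)) = ((w ^ (-e) : ℝ) : ℂ) := by
    rw [Complex.ofReal_cpow hw.le]
    push_cast
    rfl
  have h2 : 0 < w ^ (-e) := Real.rpow_pos_of_pos hw _
  have h3 : (1 + ((w ^ (-e) : ℝ) : ℂ)) / 2 = (((1 + w ^ (-e)) / 2 : ℝ) : ℂ) := by push_cast; rfl
  have h4 : (-((2 / e : ℝ) : ℂ)) = ((-(2 / e) : ℝ) : ℂ) := by push_cast; rfl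
  rw [h1, h3, h4, ← Complex.ofReal_cpow (by positivity)]

private theorem Data_gp_real {e : ℝ} (he : 0 < e) (p : ℝ) :
    gp e (p : ℂ) = ((gr e (Real.exp (-p)) : ℝ) : ℂ) := by
  rw [gr_exp he]
  unfold gp
  have h1 : exp (-(p : ℂ)) = ((Real.exp (-p) : ℝ) : ℂ) := by push_cast; rfl
  have h2 : cosh ((e : ℂ) * p / 2) = ((Real.cosh (e * p / 2) : ℝ) : ℂ) := by push_cast; rfl
  have h4 : (-((2 / e : ℝ) : ℂ)) = ((-(2 / e) : ℝ) : ℂ) := by push_cast; rfl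
  rw [h1, h2, h4, ← Complex.ofReal_cpow (Real.cosh_pos _).le, ← Complex.ofReal_mul]

private theorem Data_gs_real {e y : ℝ} (he : 0 < e) (hy : 0 < y) :
    gs e (y : ℂ) = ((gr e y : ℝ) : ℂ) := by
  have h0 : gr e y = y ^ 2 * gr e (1 / y) := by
    have h1 := gr_inv he (one_div_pos.2 hy)
    rw [one_div_one_div] at h1
    rw [h1]
    have h2 := hy.ne'
    field_simp
  have h1 : gr e (1 / y) = ((1 + y ^ e) / 2) ^ (-(2 / e)) := by
    unfold gr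
    rw [one_div, Real.inv_rpow hy.le, Real.rpow_neg hy.le, inv_inv]
  have h2 : 0 < y ^ e := Real.rpow_pos_of_pos hy _
  have h3 : (1 + ((y ^ e : ℝ) : ℂ)) / 2 = (((1 + y ^ e) / 2 : ℝ) : ℂ) := by push_cast; rfl
  have h4 : (-((2 / e : ℝ) : ℂ)) = ((-(2 / e) : ℝ) : ℂ) := by push_cast; rfl
  unfold gs
  rw [h0, h1, ← Complex.ofReal_cpow hy.le, h3, h4, ← Complex.ofReal_cpow (by positivity),
    ← Complex.ofReal_pow, ← Complex.ofReal_mul]

private theorem Data_wn_real (Y d : ℝ) :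
    wn κ (Y : ℂ) (d : ℂ) = (((2 * Real.cosh κ - Y) / (1 - d) : ℝ) : ℂ) := by
  unfold wn
  push_cast
  rfl

private theorem Data_nxt_real (Y d : ℝ) :
    nxt κ (Y : ℂ) (d : ℂ) = ((d + (1 - d) / (2 * Real.cosh κ - Y) : ℝ) : ℂ) := by
  unfold nxt
  push_cast
  rfl

private theorem Data_F0_real (he : 0 < e) (p d0 d1 : ℝ)
    (h : wn κ (exp (-(p : ℂ)) + d0) d1 ∈ slitPlane) :
    F0 e κ p d0 d1 = ((c2 e κ * gr e ((2 * Real.cosh κ - (Real.exp (-p) + d0)) / (1 - d1)) -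
      c2 e κ * gr e (Real.exp (-p)) - 2 * (Real.cosh κ - (Real.exp (-p) + d0)) : ℝ) : ℂ) := by
  have h1 : exp (-(p : ℂ)) + d0 = ((Real.exp (-p) + d0 : ℝ) : ℂ) := by push_cast; rfl
  rw [h1, Data_wn_real, Complex.ofReal_mem_slitPlane] at h
  unfold F0
  rw [h1, Data_wn_real, Data_gl_real h, Data_gp_real he]
  push_cast
  rfl

private theorem Data_FW_real (he : 0 < e) (Y d d' : ℝ) (h : wn κ (Y : ℂ) (d' : ℂ) ∈ slitPlane)
    (h2 : 0 < Y - d) :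
    FW e κ Y d d' = ((c2 e κ * gr e ((2 * Real.cosh κ - Y) / (1 - d')) -
      c2 e κ * gr e (Y - d) - 2 * (Real.cosh κ - Y) : ℝ) : ℂ) := by
  rw [Data_wn_real, Complex.ofReal_mem_slitPlane] at h
  unfold FW
  rw [Data_wn_real, Data_gl_real h, ← Complex.ofReal_sub Y d, Data_gs_real he h2]
  push_cast
  rfl

private theorem Data_real1 (W : WData e κ) {p : ℝ} (hp : (p : ℂ) ∈ W.D) {x : ℕ → ℂ}
    (hx : ∀ n, ‖x n‖ ≤ 1) (hr : ∀ n, (x n).im = 0) (n : ℕ) :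
    (pos κ W.c0 W.r0 W.r p x n).im = 0 := by
  induction n with
  | zero =>
    show (exp (-(p : ℂ)) + (W.c0 p + W.r0 p * x 0)).im = 0
    have h1 : exp (-(p : ℂ)) = ((Real.exp (-p) : ℝ) : ℂ) := by push_cast; rfl
    rw [h1, Complex.add_im, Complex.ofReal_im, Complex.add_im, Complex.mul_im, hr 0,
      W.r0_real p hp, W.c0_real p hp]
    ring
  | succ n ih =>
    show (nxt κ (pos κ W.c0 W.r0 W.r p x n) (W.r (pos κ W.c0 W.r0 W.r p x n) * x (n + 1))).im = 0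
    have hY := Data_mem W hp hx n
    have h2 : (W.r (pos κ W.c0 W.r0 W.r p x n)).im = 0 := by
      have h3 := W.r_real (pos κ W.c0 W.r0 W.r p x n).re (by rw [Data_re ih]; exact hY)
      rwa [Data_re ih] at h3
    have h4 : (W.r (pos κ W.c0 W.r0 W.r p x n) * x (n + 1)).im = 0 := by
      rw [Complex.mul_im, hr (n + 1), h2]
      ring
    rw [← Data_re h4, ← Data_re ih, Data_nxt_real, Complex.ofReal_im]

private theorem Data_real2 (W : WData e κ) {p : ℝ} (hp : (p : ℂ) ∈ W.D) {x : ℕ → ℂ}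
    (hx : ∀ n, ‖x n‖ ≤ 1) (hr : ∀ n, (x n).im = 0) (n : ℕ) :
    (dev κ W.c0 W.r0 W.r p x n).im = 0 := by
  rcases n with _ | n
  · show (W.c0 p + W.r0 p * x 0).im = 0
    rw [Complex.add_im, Complex.mul_im, hr 0, W.r0_real p hp, W.c0_real p hp]
    ring
  · show (W.r (pos κ W.c0 W.r0 W.r p x n) * x (n + 1)).im = 0
    have ih := Data_real1 W hp hx hr n
    have h3 := W.r_real (pos κ W.c0 W.r0 W.r p x n).re (by rw [Data_re ih]; exact Data_mem W hp hx n)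
    rw [Data_re ih] at h3
    rw [Complex.mul_im, hr (n + 1), h3]
    ring

private theorem Data_F0p (he : 0 < e) (W : WData e κ) {p : ℝ} (hp : (p : ℂ) ∈ W.D) {x : ℕ → ℂ}
    (hx : ∀ n, ‖x n‖ ≤ 1) (hr : ∀ n, (x n).im = 0) :
    F0 e κ p (dev κ W.c0 W.r0 W.r p x 0) (dev κ W.c0 W.r0 W.r p x 1) =
      ((c2 e κ * gr e (wn κ (pos κ W.c0 W.r0 W.r p x 0) (dev κ W.c0 W.r0 W.r p x 1)).re -
      c2 e κ * gr e (Real.exp (-p)) - 2 * (Real.cosh κ - (pos κ W.c0 W.r0 W.r p x 0).re) : ℝ) : ℂ) := by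
  have h0 := Data_re (Data_real2 W hp hx hr 0)
  have h1 := Data_re (Data_real2 W hp hx hr 1)
  have h2 : pos κ W.c0 W.r0 W.r p x 0 = exp (-(p : ℂ)) + dev κ W.c0 W.r0 W.r p x 0 := rfl
  have hs : wn κ (pos κ W.c0 W.r0 W.r p x 0) (dev κ W.c0 W.r0 W.r p x 1) ∈ slitPlane :=
    W.w_slit _ (Data_mem W hp hx 0) (x 1) (hx 1)
  have h5 : exp (-(p : ℂ)) = ((Real.exp (-p) : ℝ) : ℂ) := by push_cast; rfl
  have h3 : (pos κ W.c0 W.r0 W.r p x 0).re = Real.exp (-p) + (dev κ W.c0 W.r0 W.r p x 0).re := by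
    rw [h2, h5, Complex.add_re, Complex.ofReal_re]
  have h4 : (wn κ (pos κ W.c0 W.r0 W.r p x 0) (dev κ W.c0 W.r0 W.r p x 1)).re =
      (2 * Real.cosh κ - (Real.exp (-p) + (dev κ W.c0 W.r0 W.r p x 0).re)) /
        (1 - (dev κ W.c0 W.r0 W.r p x 1).re) := by
    rw [← h3]
    conv_lhs => rw [← Data_re (Data_real1 W hp hx hr 0), ← h1, Data_wn_real, Complex.ofReal_re]
  rw [h4, h3]
  have h6 := Data_F0_real he p (dev κ W.c0 W.r0 W.r p x 0).re (dev κ W.c0 W.r0 W.r p x 1).re (κ := κ)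
    (by rw [h0, h1, ← h2]; exact hs)
  rw [h0, h1] at h6
  exact h6

private theorem Data_FWp (he : 0 < e) (W : WData e κ) {p : ℝ} (hp : (p : ℂ) ∈ W.D) {x : ℕ → ℂ}
    (hx : ∀ n, ‖x n‖ ≤ 1) (hr : ∀ n, (x n).im = 0) (n : ℕ) :
    FW e κ (pos κ W.c0 W.r0 W.r p x (n + 1)) (dev κ W.c0 W.r0 W.r p x (n + 1))
      (dev κ W.c0 W.r0 W.r p x (n + 2)) =
      ((c2 e κ * gr e (wn κ (pos κ W.c0 W.r0 W.r p x (n + 1))
        (dev κ W.c0 W.r0 W.r p x (n + 2))).re -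
      c2 e κ * gr e ((pos κ W.c0 W.r0 W.r p x (n + 1)).re -
        (dev κ W.c0 W.r0 W.r p x (n + 1)).re) -
      2 * (Real.cosh κ - (pos κ W.c0 W.r0 W.r p x (n + 1)).re) : ℝ) : ℂ) := by
  have h0 := Data_re (Data_real1 W hp hx hr (n + 1))
  have h1 := Data_re (Data_real2 W hp hx hr (n + 2))
  have h2 := Data_re (Data_real2 W hp hx hr (n + 1))
  have hs : wn κ (pos κ W.c0 W.r0 W.r p x (n + 1)) (dev κ W.c0 W.r0 W.r p x (n + 2)) ∈
      slitPlane := W.w_slit _ (Data_mem W hp hx (n + 1)) (x (n + 2)) (hx (n + 2))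
  have h3 := (Data_inv_slit W hp hx n).1
  rw [← h0, ← h2, ← Complex.ofReal_sub, Complex.ofReal_mem_slitPlane] at h3
  have h4 : (wn κ (pos κ W.c0 W.r0 W.r p x (n + 1)) (dev κ W.c0 W.r0 W.r p x (n + 2))).re =
      (2 * Real.cosh κ - (pos κ W.c0 W.r0 W.r p x (n + 1)).re) /
        (1 - (dev κ W.c0 W.r0 W.r p x (n + 2)).re) := by
    conv_lhs => rw [← h0, ← h1, Data_wn_real, Complex.ofReal_re]
  rw [h4]
  have h6 := Data_FW_real (e := e) (κ := κ) he (pos κ W.c0 W.r0 W.r p x (n + 1)).re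
    (dev κ W.c0 W.r0 W.r p x (n + 1)).re (dev κ W.c0 W.r0 W.r p x (n + 2)).re
    (by rw [h0, h1]; exact hs) h3
  rw [h0, h1, h2] at h6
  exact h6

private theorem Data_M0r (W : WData e κ) {p : ℝ} (hp : (p : ℂ) ∈ W.D) {x : ℕ → ℂ}
    (hx : ∀ n, ‖x n‖ ≤ 1) (hr : ∀ n, (x n).im = 0) :
    (W.M0 p (dev κ W.c0 W.r0 W.r p x 0) (dev κ W.c0 W.r0 W.r p x 1)).im = 0 := by
  have h := W.M0_real p hp (x 0).re (x 1).re ((Complex.abs_re_le_norm _).trans (hx 0))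
    ((Complex.abs_re_le_norm _).trans (hx 1))
  rw [Data_re (hr 0), Data_re (hr 1)] at h
  exact h

private theorem Data_Mr (W : WData e κ) {p : ℝ} (hp : (p : ℂ) ∈ W.D) {x : ℕ → ℂ}
    (hx : ∀ n, ‖x n‖ ≤ 1) (hr : ∀ n, (x n).im = 0) (n : ℕ) :
    (W.M (pos κ W.c0 W.r0 W.r p x (n + 1)) (dev κ W.c0 W.r0 W.r p x (n + 1))
      (dev κ W.c0 W.r0 W.r p x (n + 2))).im = 0 := by
  have h0 := Data_re (Data_real1 W hp hx hr n)
  have h := W.M_real (pos κ W.c0 W.r0 W.r p x n).re (by rw [h0]; exact Data_mem W hp hx n)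
    (x (n + 1)).re (x (n + 2)).re ((Complex.abs_re_le_norm _).trans (hx _))
    ((Complex.abs_re_le_norm _).trans (hx _))
  rw [Data_re (hr (n + 1)), Data_re (hr (n + 2)), h0] at h
  exact h

/-- Reality for real `p` and real `x`: all positions and deviations are real (`r_real`), the numbers
in the slit plane which are real are positive, and real powers of positive reals are real. -/
theorem WData.real (he : 1 < e) (W : WData e κ) {p : ℝ} (hp : (p : ℂ) ∈ W.D) {x : ℕ → ℂ}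
    (hx : ∀ n, ‖x n‖ ≤ 1) (hr : ∀ n, (x n).im = 0) (n : ℕ) :
    (pos κ W.c0 W.r0 W.r p x n).im = 0 ∧ (dev κ W.c0 W.r0 W.r p x n).im = 0 ∧
      (Phi e κ W.c0 W.r0 W.r W.M0 W.M p x n).im = 0 := by
  have he0 : 0 < e := by linarith
  refine ⟨Data_real1 W hp hx hr n, Data_real2 W hp hx hr n, ?_⟩
  rcases n with _ | n
  · show ((W.r0 p * x 0 - W.M0 p (dev κ W.c0 W.r0 W.r p x 0) (dev κ W.c0 W.r0 W.r p x 1) *
      F0 e κ p (dev κ W.c0 W.r0 W.r p x 0) (dev κ W.c0 W.r0 W.r p x 1)) / W.r0 p).im = 0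
    rw [Data_F0p he0 W hp hx hr, ← Data_re (hr 0),
      ← Data_re (Data_M0r W hp hx hr), ← Data_re (W.r0_real p hp), ← Complex.ofReal_mul,
      ← Complex.ofReal_mul, ← Complex.ofReal_sub, ← Complex.ofReal_div, Complex.ofReal_im]
  · show ((dev κ W.c0 W.r0 W.r p x (n + 1) -
      W.M (pos κ W.c0 W.r0 W.r p x (n + 1)) (dev κ W.c0 W.r0 W.r p x (n + 1))
        (dev κ W.c0 W.r0 W.r p x (n + 2)) *
      FW e κ (pos κ W.c0 W.r0 W.r p x (n + 1)) (dev κ W.c0 W.r0 W.r p x (n + 1))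
        (dev κ W.c0 W.r0 W.r p x (n + 2))) / W.r (pos κ W.c0 W.r0 W.r p x n)).im = 0
    have ih := Data_real1 W hp hx hr n
    have h3 := W.r_real (pos κ W.c0 W.r0 W.r p x n).re (by rw [Data_re ih]; exact Data_mem W hp hx n)
    rw [Data_re ih] at h3
    have h4 := Data_re (Data_Mr W hp hx hr n)
    have h5 := Data_re (Data_real2 W hp hx hr (n + 1))
    rw [Data_FWp he0 W hp hx hr, ← h4, ← Data_re h3]
    rw [← Complex.ofReal_mul]
    nth_rewrite 1 [← h5]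
    rw [← Complex.ofReal_sub, ← Complex.ofReal_div, Complex.ofReal_im]

/-- The real orbit of a real fixed sequence: `w 0 = exp p`, `w (n+1) = wn κ (pos n) (dev (n+1))`,
`ζ n = cosh κ - pos n`. -/
noncomputable def wseq (κ : ℝ) (c0 r0 r : ℂ → ℂ) (p : ℝ) (x : ℕ → ℂ) : ℕ → ℝ
  | 0 => Real.exp p
  | n + 1 => (wn κ (pos κ c0 r0 r p x n) (dev κ c0 r0 r p x (n + 1))).re

noncomputable def zseq (κ : ℝ) (c0 r0 r : ℂ → ℂ) (p : ℝ) (x : ℕ → ℂ) (n : ℕ) : ℝ :=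
  Real.cosh κ - (pos κ c0 r0 r p x n).re

/-- The hypotheses of `orbit_of_w`.  `hζ` for `n = 0`: `x 0 = Phi .. 0` and `M0 ≠ 0` give `F0 = 0`,
and `gr e (1/w 0) = gp e p` (`gr_exp`).  For `n + 1`: `x (n+1) = Phi .. (n+1)` and `M ≠ 0` give
`FW = 0`, and `gs e (pos (n+1) - dev (n+1)) = gr e (1 / w (n+1))` since
`pos (n+1) - dev (n+1) = 1 / w (n+1)` (`nxt_sub`; for real `y > 0`,
`y² ((1 + y^e)/2)^(-2/e) = ((1 + y^(-e))/2)^(-2/e)`).  `hs` is the identity `w (1 - d) = 2C - Y`,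
`Y' = d + 1/w`.
`hJ`: `ζ 0 - (C - 1) = 1 - exp (-p) - d 0 = exp(-p/2) (2 sinh (p/2) - exp (p/2) d 0)` and
`sqrt (gr e (exp (-p))) = exp (-p/2) cosh(ep/2)^(-1/e)`, `real_small`.
Limits: `|pos n - exp (-κ)| ≤ lam^n |pos 0 - exp(-κ)| → 0` by `contr`, `dev (n+1) → 0` by `r_le`. -/
theorem WData.real_hyps (he : 1 < e) (hκ : 0 < κ) (W : WData e κ) {p : ℝ} (hp : (p : ℂ) ∈ W.D)
    {x : ℕ → ℂ} (hx : ∀ n, ‖x n‖ ≤ 1) (hr : ∀ n, (x n).im = 0)
    (hfix : ∀ n, x n = Phi e κ W.c0 W.r0 W.r W.M0 W.M p x n) :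
    (∀ n, 1 < wseq κ W.c0 W.r0 W.r p x (n + 1)) ∧
    (∀ n, c2 e κ * (gr e (wseq κ W.c0 W.r0 W.r p x (n + 1)) -
      gr e (1 / wseq κ W.c0 W.r0 W.r p x n)) = 2 * zseq κ W.c0 W.r0 W.r p x n) ∧
    (∀ n, zseq κ W.c0 W.r0 W.r p x n + (Real.cosh κ - 1) =
      wseq κ W.c0 W.r0 W.r p x (n + 1) *
        (zseq κ W.c0 W.r0 W.r p x (n + 1) - (Real.cosh κ - 1))) ∧
    (|zseq κ W.c0 W.r0 W.r p x 0 - (Real.cosh κ - 1)| <
      2 * Real.sinh (κ / 2) * Real.cosh (e * κ / 2) ^ (1 / e) *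
        Real.sqrt (gr e (1 / wseq κ W.c0 W.r0 W.r p x 0))) ∧
    Tendsto (wseq κ W.c0 W.r0 W.r p x) atTop (𝓝 (Real.exp κ)) ∧
    Tendsto (zseq κ W.c0 W.r0 W.r p x) atTop (𝓝 (Real.sinh κ)) := by
  have he0 : 0 < e := by linarith
  have hc2 : 0 < c2 e κ := Real.rpow_pos_of_pos (Real.cosh_pos _) _
  set P : ℕ → ℝ := fun n => (pos κ W.c0 W.r0 W.r p x n).re with hP
  set d : ℕ → ℝ := fun n => (dev κ W.c0 W.r0 W.r p x n).re with hd
  have hPc : ∀ n, ((P n : ℝ) : ℂ) = pos κ W.c0 W.r0 W.r p x n := fun n =>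
    Data_re (Data_real1 W hp hx hr n)
  have hdc : ∀ n, ((d n : ℝ) : ℂ) = dev κ W.c0 W.r0 W.r p x n := fun n =>
    Data_re (Data_real2 W hp hx hr n)
  have hxc : ∀ n, (((x n).re : ℝ) : ℂ) = x n := fun n => Data_re (hr n)
  have hmem := fun n => Data_mem W hp hx n
  set w : ℕ → ℝ := wseq κ W.c0 W.r0 W.r p x with hw
  have hw0 : w 0 = Real.exp p := rfl
  have hwS : ∀ n, w (n + 1) = (wn κ (pos κ W.c0 W.r0 W.r p x n) (dev κ W.c0 W.r0 W.r p x (n + 1))).re :=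
    fun n => rfl
  have hwr : ∀ n, w (n + 1) = (2 * Real.cosh κ - P n) / (1 - d (n + 1)) := by
    intro n
    rw [hwS, ← hPc, ← hdc, Data_wn_real, Complex.ofReal_re]
  have hwc : ∀ n, wn κ (pos κ W.c0 W.r0 W.r p x n) (dev κ W.c0 W.r0 W.r p x (n + 1)) =
      ((w (n + 1) : ℝ) : ℂ) := by
    intro n
    rw [hwr, ← hPc, ← hdc, Data_wn_real]
  have hw1 : ∀ n, 1 < w (n + 1) := by
    intro n
    have h1 : wn κ (pos κ W.c0 W.r0 W.r p x n) (dev κ W.c0 W.r0 W.r p x (n + 1)) ∈ slitPlane :=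
      W.w_slit _ (hmem n) (x (n + 1)) (hx (n + 1))
    have h2 : 1 < ‖wn κ (pos κ W.c0 W.r0 W.r p x n) (dev κ W.c0 W.r0 W.r p x (n + 1))‖ :=
      W.w_norm _ (hmem n) (x (n + 1)) (hx (n + 1))
    rw [hwc, Complex.ofReal_mem_slitPlane] at h1
    rw [hwc, Complex.norm_real, Real.norm_eq_abs, abs_of_pos h1] at h2
    exact h2
  have hden : ∀ n, 2 * Real.cosh κ - P n ≠ 0 := by
    intro n h
    apply W.den_ne _ (hmem n)
    rw [← hPc]
    exact_mod_cast congrArg (fun t : ℝ => (t : ℂ)) h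
  have hone : ∀ n, 1 - d (n + 1) ≠ 0 := by
    intro n h
    apply W.one_sub_ne _ (hmem n) (x (n + 1)) (hx (n + 1))
    have h1 : W.r (pos κ W.c0 W.r0 W.r p x n) * x (n + 1) = dev κ W.c0 W.r0 W.r p x (n + 1) := rfl
    rw [h1, ← hdc]
    exact_mod_cast congrArg (fun t : ℝ => (t : ℂ)) h
  have hnx : ∀ n, P (n + 1) = d (n + 1) + (1 - d (n + 1)) / (2 * Real.cosh κ - P n) := by
    intro n
    have h1 : pos κ W.c0 W.r0 W.r p x (n + 1) =
      nxt κ (pos κ W.c0 W.r0 W.r p x n) (dev κ W.c0 W.r0 W.r p x (n + 1)) := rfl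
    show (pos κ W.c0 W.r0 W.r p x (n + 1)).re = _
    rw [h1, ← hPc, ← hdc, Data_nxt_real, Complex.ofReal_re]
  have hinv : ∀ n, P (n + 1) - d (n + 1) = 1 / w (n + 1) := by
    intro n
    rw [hnx, hwr]
    have h1 := hden n
    have h2 := hone n
    field_simp
    ring
  have hz : ∀ n, zseq κ W.c0 W.r0 W.r p x n = Real.cosh κ - P n := fun n => rfl
  set q := Real.exp (-κ) with hq
  have hlimP : Tendsto P atTop (𝓝 q) := by
    have h1 : ∀ n, |P n - q| ≤ W.lam ^ n * |P 0 - q| := by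
      intro n
      induction n with
      | zero => simp
      | succ n ih =>
        have h2 := W.contr (P n) (by rw [hPc]; exact hmem n) (x (n + 1)).re
          ((Complex.abs_re_le_norm _).trans (hx _))
        rw [hxc, hPc] at h2
        have h3 : |P (n + 1) - q| ≤ W.lam * |P n - q| := h2
        calc |P (n + 1) - q| ≤ W.lam * |P n - q| := h3
          _ ≤ W.lam * (W.lam ^ n * |P 0 - q|) := mul_le_mul_of_nonneg_left ih W.hlam0
          _ = W.lam ^ (n + 1) * |P 0 - q| := by ring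
    have h2 : Tendsto (fun n => W.lam ^ n * |P 0 - q|) atTop (𝓝 0) := by
      have := (tendsto_pow_atTop_nhds_zero_of_lt_one W.hlam0 W.hlam1).mul_const |P 0 - q|
      simpa using this
    rw [tendsto_iff_dist_tendsto_zero]
    refine squeeze_zero (fun n => dist_nonneg) (fun n => ?_) h2
    rw [Real.dist_eq]
    exact h1 n
  have hlimd : Tendsto (fun n => d (n + 1)) atTop (𝓝 0) := by
    have h1 : ∀ n, |d (n + 1)| ≤ W.B * |P n - q| := by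
      intro n
      have h2 := W.r_le (P n) (by rw [hPc]; exact hmem n)
      have h3 : |d (n + 1)| ≤ ‖dev κ W.c0 W.r0 W.r p x (n + 1)‖ := Complex.abs_re_le_norm _
      have h4 : ‖dev κ W.c0 W.r0 W.r p x (n + 1)‖ ≤ ‖W.r (P n : ℂ)‖ := by
        show ‖W.r (pos κ W.c0 W.r0 W.r p x n) * x (n + 1)‖ ≤ _
        rw [norm_mul, hPc]
        have h5 := norm_nonneg (W.r (pos κ W.c0 W.r0 W.r p x n))
        have h6 := hx (n + 1)
        nlinarith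
      exact (h3.trans h4).trans h2
    have h2 : Tendsto (fun n => W.B * |P n - q|) atTop (𝓝 0) := by
      have h3 : Tendsto (fun n => P n - q) atTop (𝓝 (q - q)) := hlimP.sub_const q
      rw [sub_self] at h3
      have h4 := (h3.abs).const_mul W.B
      simpa using h4
    exact squeeze_zero_norm h1 h2
  have hC : 2 * Real.cosh κ - q = Real.exp κ := by
    rw [Real.cosh_eq]
    ring
  refine ⟨hw1, ?_, ?_, ?_, ?_, ?_⟩
  · intro n
    rw [hz]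
    rcases n with _ | n
    · have h1 : F0 e κ p (dev κ W.c0 W.r0 W.r p x 0) (dev κ W.c0 W.r0 W.r p x 1) = 0 := by
        have h2 : x 0 = (W.r0 p * x 0 - W.M0 p (dev κ W.c0 W.r0 W.r p x 0)
          (dev κ W.c0 W.r0 W.r p x 1) * F0 e κ p (dev κ W.c0 W.r0 W.r p x 0)
          (dev κ W.c0 W.r0 W.r p x 1)) / W.r0 p := hfix 0
        rw [eq_div_iff (W.r0_ne p hp)] at h2
        have h4 : W.M0 p (dev κ W.c0 W.r0 W.r p x 0) (dev κ W.c0 W.r0 W.r p x 1) *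
            F0 e κ p (dev κ W.c0 W.r0 W.r p x 0) (dev κ W.c0 W.r0 W.r p x 1) = 0 := by
          linear_combination h2
        exact (mul_eq_zero.1 h4).resolve_left (W.M0_ne p hp (x 0) (x 1) (hx 0) (hx 1))
      rw [Data_F0p he0 W hp hx hr, Complex.ofReal_eq_zero] at h1
      have h2 : 1 / w 0 = Real.exp (-p) := by rw [hw0, Real.exp_neg, one_div]
      rw [h2]
      have h3 : c2 e κ * gr e (w 1) - c2 e κ * gr e (Real.exp (-p)) -
        2 * (Real.cosh κ - P 0) = 0 := h1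
      show c2 e κ * (gr e (w 1) - gr e (Real.exp (-p))) = 2 * (Real.cosh κ - P 0)
      linarith
    · have h1 : FW e κ (pos κ W.c0 W.r0 W.r p x (n + 1)) (dev κ W.c0 W.r0 W.r p x (n + 1))
          (dev κ W.c0 W.r0 W.r p x (n + 2)) = 0 := by
        have h2 : x (n + 1) = (dev κ W.c0 W.r0 W.r p x (n + 1) -
          W.M (pos κ W.c0 W.r0 W.r p x (n + 1)) (dev κ W.c0 W.r0 W.r p x (n + 1))
            (dev κ W.c0 W.r0 W.r p x (n + 2)) *
          FW e κ (pos κ W.c0 W.r0 W.r p x (n + 1)) (dev κ W.c0 W.r0 W.r p x (n + 1))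
            (dev κ W.c0 W.r0 W.r p x (n + 2))) / W.r (pos κ W.c0 W.r0 W.r p x n) := hfix (n + 1)
        rw [eq_div_iff (W.r_ne _ (hmem n))] at h2
        have h3 : dev κ W.c0 W.r0 W.r p x (n + 1) =
          W.r (pos κ W.c0 W.r0 W.r p x n) * x (n + 1) := rfl
        have h4 : W.M (pos κ W.c0 W.r0 W.r p x (n + 1)) (dev κ W.c0 W.r0 W.r p x (n + 1))
            (dev κ W.c0 W.r0 W.r p x (n + 2)) *
          FW e κ (pos κ W.c0 W.r0 W.r p x (n + 1)) (dev κ W.c0 W.r0 W.r p x (n + 1))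
            (dev κ W.c0 W.r0 W.r p x (n + 2)) = 0 := by
          linear_combination h2 + h3
        exact (mul_eq_zero.1 h4).resolve_left
          (W.M_ne _ (hmem n) (x (n + 1)) (x (n + 2)) (hx _) (hx _))
      rw [Data_FWp he0 W hp hx hr, Complex.ofReal_eq_zero] at h1
      have h3 : c2 e κ * gr e (w (n + 2)) - c2 e κ * gr e (P (n + 1) - d (n + 1)) -
        2 * (Real.cosh κ - P (n + 1)) = 0 := h1
      rw [hinv n] at h3
      show c2 e κ * (gr e (w (n + 2)) - gr e (1 / w (n + 1))) = 2 * (Real.cosh κ - P (n + 1))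
      linarith
  · intro n
    rw [hz, hz]
    have h1 := hinv n
    have h2 : w (n + 1) ≠ 0 := by linarith [hw1 n]
    have h3 : w (n + 1) * (1 - d (n + 1)) = 2 * Real.cosh κ - P n := by
      rw [hwr, div_mul_cancel₀ _ (hone n)]
    have h4 : w (n + 1) * (P (n + 1) - d (n + 1)) = 1 := by
      rw [h1, mul_one_div, div_self h2]
    linear_combination -h3 + h4
  · rw [hz]
    have h1 : 1 / w 0 = Real.exp (-p) := by rw [hw0, Real.exp_neg, one_div]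
    rw [h1, gr_exp he0]
    have hch : 0 < Real.cosh (e * p / 2) := Real.cosh_pos _
    have h2 : Real.sqrt (Real.exp (-p) * Real.cosh (e * p / 2) ^ (-(2 / e))) =
        Real.exp (-p / 2) * Real.cosh (e * p / 2) ^ (-(1 / e)) := by
      have h3 : Real.exp (-p) * Real.cosh (e * p / 2) ^ (-(2 / e)) =
          (Real.exp (-p / 2) * Real.cosh (e * p / 2) ^ (-(1 / e))) ^ 2 := by
        rw [mul_pow, ← Real.exp_nat_mul, ← Real.rpow_natCast, ← Real.rpow_mul hch.le]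
        congr 2
        · push_cast
          ring
        · push_cast
          ring
      rw [h3, Real.sqrt_sq (by positivity)]
    rw [h2]
    have h3 : P 0 = Real.exp (-p) + d 0 := by
      have h5 : pos κ W.c0 W.r0 W.r p x 0 = exp (-(p : ℂ)) + dev κ W.c0 W.r0 W.r p x 0 := rfl
      have h6 : exp (-(p : ℂ)) = ((Real.exp (-p) : ℝ) : ℂ) := by push_cast; rfl
      show (pos κ W.c0 W.r0 W.r p x 0).re = _
      rw [h5, h6, Complex.add_re, Complex.ofReal_re]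
    have h4 : Real.cosh κ - P 0 - (Real.cosh κ - 1) =
        Real.exp (-p / 2) * (2 * Real.sinh (p / 2) - Real.exp (p / 2) * d 0) := by
      rw [h3, Real.sinh_eq]
      have e1 : Real.exp (-p / 2) * Real.exp (p / 2) = 1 := by
        rw [← Real.exp_add]
        have : -p / 2 + p / 2 = 0 := by ring
        rw [this, Real.exp_zero]
      have e2 : Real.exp (-p / 2) * Real.exp (-(p / 2)) = Real.exp (-p) := by
        rw [← Real.exp_add]
        congr 1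
        ring
      linear_combination (-1 + d 0) * e1 + e2
    have h5 : |d 0| ≤ ‖W.c0 p‖ + ‖W.r0 p‖ := by
      have h6 : |d 0| ≤ ‖W.c0 p + W.r0 p * x 0‖ := Complex.abs_re_le_norm _
      have h9 := norm_add_le (W.c0 p) (W.r0 p * x 0)
      rw [norm_mul] at h9
      have h7 := norm_nonneg (W.r0 p)
      have h8 := hx 0
      nlinarith
    have h6 : |2 * Real.sinh (p / 2) - Real.exp (p / 2) * d 0| ≤
        2 * Real.sinh (|p| / 2) + Real.exp (p / 2) * (‖W.c0 p‖ + ‖W.r0 p‖) := by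
      have h7 : |2 * Real.sinh (p / 2)| = 2 * Real.sinh (|p| / 2) := by
        rw [abs_mul, abs_of_pos (by norm_num : (0 : ℝ) < 2), Real.abs_sinh, abs_div,
          abs_of_pos (by norm_num : (0 : ℝ) < 2)]
      have h8 : |Real.exp (p / 2) * d 0| ≤ Real.exp (p / 2) * (‖W.c0 p‖ + ‖W.r0 p‖) := by
        rw [abs_mul, abs_of_pos (Real.exp_pos _)]
        exact mul_le_mul_of_nonneg_left h5 (Real.exp_pos _).le
      have h9 := abs_sub (2 * Real.sinh (p / 2)) (Real.exp (p / 2) * d 0)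
      rw [h7] at h9
      linarith
    have h7 := W.real_small p hp
    rw [h4, abs_mul, abs_of_pos (Real.exp_pos _)]
    have hcp : 0 < Real.cosh (e * p / 2) ^ (1 / e) := Real.rpow_pos_of_pos hch _
    have hcn : Real.cosh (e * p / 2) ^ (-(1 / e)) = (Real.cosh (e * p / 2) ^ (1 / e))⁻¹ :=
      Real.rpow_neg hch.le _
    rw [hcn]
    have h8 : |2 * Real.sinh (p / 2) - Real.exp (p / 2) * d 0| <
        2 * Real.sinh (κ / 2) * Real.cosh (e * κ / 2) ^ (1 / e) *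
          (Real.cosh (e * p / 2) ^ (1 / e))⁻¹ := by
      refine h6.trans_lt ?_
      rw [← div_eq_mul_inv, lt_div_iff₀ hcp]
      exact h7
    calc Real.exp (-p / 2) * |2 * Real.sinh (p / 2) - Real.exp (p / 2) * d 0|
        < Real.exp (-p / 2) * (2 * Real.sinh (κ / 2) * Real.cosh (e * κ / 2) ^ (1 / e) *
          (Real.cosh (e * p / 2) ^ (1 / e))⁻¹) := mul_lt_mul_of_pos_left h8 (Real.exp_pos _)
      _ = _ := by ring
  · have h1 : Tendsto (fun n => w (n + 1)) atTop (𝓝 (Real.exp κ)) := by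
      have h2 : Tendsto (fun n => (2 * Real.cosh κ - P n) / (1 - d (n + 1))) atTop
          (𝓝 ((2 * Real.cosh κ - q) / (1 - 0))) :=
        (hlimP.const_sub _).div (hlimd.const_sub 1) (by norm_num)
      rw [sub_zero, div_one, hC] at h2
      exact h2.congr (fun n => (hwr n).symm)
    exact (tendsto_add_atTop_iff_nat 1).1 h1
  · have h1 : Tendsto (fun n => Real.cosh κ - P n) atTop (𝓝 (Real.cosh κ - q)) :=
      hlimP.const_sub _
    have h2 : Real.cosh κ - q = Real.sinh κ := by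
      rw [Real.cosh_eq, Real.sinh_eq, hq]
      ring
    rw [h2] at h1
    exact h1

/-- **The interface theorem.**  `s p x n = sl e κ (wseq ..) (zseq ..) n`,
`Tf p x = (exp (p/2) - exp (-p/2) - exp (p/2) (c0 p + r0 p x 0)) cosh(ep/2)^(1/e) /
  (2 sinh(κ/2) cosh(eκ/2)^(1/e))`.
`Tf_real`: last part of `orbit_of_w` with `sqrt (gr e (exp (-p))) = exp(-p/2) cosh(ep/2)^(-1/e)`.
`neg`, `pos`: the sign of `s 0` is the sign of `ζ 0 - ω = 1 - exp (-p) - d 0`,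
`|d 0| ≤ ‖c0 p‖ + ‖r0 p‖`.
`test`: at `p = iη`, `exp(p/2) - exp(-p/2)` is imaginary, `cosh(ep/2) = cos(eη/2)` is real and in
the slit plane, hence positive, so `Re Tf = - (positive) Re (exp(p/2) d 0)`. -/
theorem WData.nonempty_wTrap (he : 1 < e) (hκ : 0 < κ) (W : WData e κ) :
    Nonempty (WTrap e (Real.exp κ)) := by
  have he0 : 0 < e := by linarith
  set Bc : ℝ := 2 * Real.sinh (κ / 2) * Real.cosh (e * κ / 2) ^ (1 / e) with hBc
  have hBpos : 0 < Bc := by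
    have h1 := Real.sinh_pos_iff.2 (half_pos hκ)
    have h2 : 0 < Real.cosh (e * κ / 2) ^ (1 / e) := Real.rpow_pos_of_pos (Real.cosh_pos _) _
    positivity
  have hall : ∀ p : ℝ, (p : ℂ) ∈ W.D → ∀ x : ℕ → ℂ, (∀ n, ‖x n‖ ≤ 1) → (∀ n, (x n).im = 0) →
      (∀ n, x n = Phi e κ W.c0 W.r0 W.r W.M0 W.M p x n) →
      (∀ n, sl e κ (wseq κ W.c0 W.r0 W.r p x) (zseq κ W.c0 W.r0 W.r p x) n <
        sl e κ (wseq κ W.c0 W.r0 W.r p x) (zseq κ W.c0 W.r0 W.r p x) (n + 1)) ∧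
      (∀ n, (sl e κ (wseq κ W.c0 W.r0 W.r p x) (zseq κ W.c0 W.r0 W.r p x) (n + 1) -
        sl e κ (wseq κ W.c0 W.r0 W.r p x) (zseq κ W.c0 W.r0 W.r p x) n) ^ (-e) +
        (sl e κ (wseq κ W.c0 W.r0 W.r p x) (zseq κ W.c0 W.r0 W.r p x) (n + 2) -
        sl e κ (wseq κ W.c0 W.r0 W.r p x) (zseq κ W.c0 W.r0 W.r p x) (n + 1)) ^ (-e) =
        FF e (Real.exp κ) (sl e κ (wseq κ W.c0 W.r0 W.r p x) (zseq κ W.c0 W.r0 W.r p x) (n + 1))) ∧
      Tendsto (sl e κ (wseq κ W.c0 W.r0 W.r p x) (zseq κ W.c0 W.r0 W.r p x)) atTop atTop ∧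
      Tendsto (fun n => sl e κ (wseq κ W.c0 W.r0 W.r p x) (zseq κ W.c0 W.r0 W.r p x) (n + 1) /
        sl e κ (wseq κ W.c0 W.r0 W.r p x) (zseq κ W.c0 W.r0 W.r p x) n) atTop (𝓝 (Real.exp κ)) ∧
      (sl e κ (wseq κ W.c0 W.r0 W.r p x) (zseq κ W.c0 W.r0 W.r p x) 1 -
        sl e κ (wseq κ W.c0 W.r0 W.r p x) (zseq κ W.c0 W.r0 W.r p x) 0) ^ (-e) /
        FF e (Real.exp κ) (sl e κ (wseq κ W.c0 W.r0 W.r p x) (zseq κ W.c0 W.r0 W.r p x) 0) =
        1 / (1 + Real.exp (e * p)) ∧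
      sl e κ (wseq κ W.c0 W.r0 W.r p x) (zseq κ W.c0 W.r0 W.r p x) 0 /
        Real.sqrt (1 + sl e κ (wseq κ W.c0 W.r0 W.r p x) (zseq κ W.c0 W.r0 W.r p x) 0 ^ 2) =
        (1 - Real.exp (-p) - (W.c0 p + W.r0 p * x 0).re) /
          (Bc * (Real.exp (-p / 2) * Real.cosh (e * p / 2) ^ (-(1 / e)))) := by
    intro p hp x hx hr hfix
    obtain ⟨a1, a2, a3, a4, a5, a6⟩ := W.real_hyps he hκ hp hx hr hfix
    have hw0 : wseq κ W.c0 W.r0 W.r p x 0 = Real.exp p := rfl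
    obtain ⟨b1, b2, b3, b4, b5, b6⟩ := orbit_of_w he hκ (by rw [hw0]; exact Real.exp_pos p)
      a1 a2 a3 a4 a5 a6
    refine ⟨b1, b2, b3, b4, ?_, ?_⟩
    · rw [b5, hw0, ← Real.exp_mul, mul_comm p e]
    · rw [b6]
      have h1 : 1 / wseq κ W.c0 W.r0 W.r p x 0 = Real.exp (-p) := by rw [hw0, Real.exp_neg, one_div]
      rw [h1, gr_exp he0]
      have hch : 0 < Real.cosh (e * p / 2) := Real.cosh_pos _
      have h2 : Real.sqrt (Real.exp (-p) * Real.cosh (e * p / 2) ^ (-(2 / e))) =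
          Real.exp (-p / 2) * Real.cosh (e * p / 2) ^ (-(1 / e)) := by
        have h3 : Real.exp (-p) * Real.cosh (e * p / 2) ^ (-(2 / e)) =
            (Real.exp (-p / 2) * Real.cosh (e * p / 2) ^ (-(1 / e))) ^ 2 := by
          rw [mul_pow, ← Real.exp_nat_mul, ← Real.rpow_natCast, ← Real.rpow_mul hch.le]
          congr 2
          · push_cast
            ring
          · push_cast
            ring
        rw [h3, Real.sqrt_sq (by positivity)]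
      rw [h2]
      have h3 : zseq κ W.c0 W.r0 W.r p x 0 - (Real.cosh κ - 1) =
          1 - Real.exp (-p) - (W.c0 p + W.r0 p * x 0).re := by
        have h5 : pos κ W.c0 W.r0 W.r p x 0 = exp (-(p : ℂ)) + (W.c0 p + W.r0 p * x 0) := rfl
        have h6 : exp (-(p : ℂ)) = ((Real.exp (-p) : ℝ) : ℂ) := by push_cast; rfl
        show Real.cosh κ - (pos κ W.c0 W.r0 W.r p x 0).re - (Real.cosh κ - 1) = _
        rw [h5, h6, Complex.add_re, Complex.ofReal_re]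
        ring
      rw [h3]
  refine ⟨{
    θ := W.θ
    hθ0 := W.hθ0
    hθ1 := W.hθ1
    D := W.D
    isOpen_D := W.isOpen_D
    R := fun _ _ => 1
    R_pos := fun _ _ _ => one_pos
    R_cont := ?_
    Φ := Phi e κ W.c0 W.r0 W.r W.M0 W.M
    maps := ?_
    hol := W.hol he
    real := fun p hp x hx hr n => (W.real he hp hx hr n).2.2
    s := fun p x => sl e κ (wseq κ W.c0 W.r0 W.r p x) (zseq κ W.c0 W.r0 W.r p x)
    orbit := ?_
    param := ?_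
    Tf := fun p x => (exp (p / 2) - exp (-p / 2) - exp (p / 2) * (W.c0 p + W.r0 p * x 0)) *
      cosh (e * p / 2) ^ ((1 / e : ℝ) : ℂ) / (Bc : ℂ)
    hol_Tf := ?_
    Tf_real := ?_
    η := W.η
    hη := W.hη
    seg := W.seg
    δ := W.δ
    hδ := W.hδ
    segr := W.segr
    neg := ?_
    pos := ?_
    test := ?_ }⟩
  · intro s _ ε hε
    filter_upwards with t n
    constructor <;> linarith
  · intro p hp x hx n
    rw [mul_one]
    exact W.maps hp hx n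
  · intro p hp x hx hr hfix
    obtain ⟨b1, b2, b3, b4, -, -⟩ := hall p hp x hx hr hfix
    exact ⟨b1, b2, b3, b4⟩
  · intro p hp x hx hr hfix
    exact (hall p hp x hx hr hfix).2.2.2.2.1
  · intro x hx hb
    have h1 : DifferentiableOn ℂ (fun z : ℂ => exp (z / 2)) W.D := by fun_prop
    have h2 : DifferentiableOn ℂ (fun z : ℂ => exp (-z / 2)) W.D := by fun_prop
    have h3 : DifferentiableOn ℂ (fun z : ℂ => cosh (e * z / 2) ^ ((1 / e : ℝ) : ℂ)) W.D := by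
      intro z hz
      have h4 : DifferentiableAt ℂ (fun z : ℂ => cosh (e * z / 2)) z := by fun_prop
      exact (h4.cpow_const (W.cosh_slit z hz)).differentiableWithinAt
    exact (((h1.sub h2).sub (h1.mul (W.c0_diff.add (W.r0_diff.mul (hx 0))))).mul h3).div_const _
  · intro p hp x hx hr hfix
    have h1 := (hall p hp x hx hr hfix).2.2.2.2.2
    show (exp ((p : ℂ) / 2) - exp (-(p : ℂ) / 2) - exp ((p : ℂ) / 2) * (W.c0 p + W.r0 p * x 0)) *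
      cosh (e * (p : ℂ) / 2) ^ ((1 / e : ℝ) : ℂ) / (Bc : ℂ) =
      ((sl e κ (wseq κ W.c0 W.r0 W.r p x) (zseq κ W.c0 W.r0 W.r p x) 0 /
        Real.sqrt (1 + sl e κ (wseq κ W.c0 W.r0 W.r p x) (zseq κ W.c0 W.r0 W.r p x) 0 ^ 2) : ℝ) : ℂ)
    rw [h1]
    have hd : (((W.c0 p + W.r0 p * x 0).re : ℝ) : ℂ) = W.c0 p + W.r0 p * x 0 :=
      Data_re (Data_real2 W hp hx hr 0)
    have e1 : exp ((p : ℂ) / 2) = ((Real.exp (p / 2) : ℝ) : ℂ) := by push_cast; rfl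
    have e2 : exp (-(p : ℂ) / 2) = ((Real.exp (-p / 2) : ℝ) : ℂ) := by push_cast; rfl
    have e3 : cosh ((e : ℂ) * p / 2) = ((Real.cosh (e * p / 2) : ℝ) : ℂ) := by push_cast; rfl
    have hch : 0 < Real.cosh (e * p / 2) := Real.cosh_pos _
    rw [e1, e2, e3, ← Complex.ofReal_cpow hch.le, ← hd, ← Complex.ofReal_mul,
      ← Complex.ofReal_sub, ← Complex.ofReal_sub, ← Complex.ofReal_mul, ← Complex.ofReal_div,
      Complex.ofReal_inj, hd]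
    set v := (W.c0 p + W.r0 p * x 0).re with hv
    have hcp : 0 < Real.cosh (e * p / 2) ^ (1 / e) := Real.rpow_pos_of_pos hch _
    have hcn : Real.cosh (e * p / 2) ^ (-(1 / e)) = (Real.cosh (e * p / 2) ^ (1 / e))⁻¹ :=
      Real.rpow_neg hch.le _
    have hE : Real.exp (-p / 2) = (Real.exp (p / 2))⁻¹ := by
      rw [← Real.exp_neg]
      congr 1
      ring
    have hE2 : Real.exp (-p) = (Real.exp (p / 2))⁻¹ * (Real.exp (p / 2))⁻¹ := by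
      rw [← Real.exp_neg, ← Real.exp_add]
      congr 1
      ring
    rw [hcn, hE, hE2]
    have hE0 := (Real.exp_pos (p / 2)).ne'
    have hB0 := hBpos.ne'
    field_simp
  · intro x hx hr hfix
    have h1 := (hall (-W.δ) (W.segr (-W.δ) (by rw [abs_neg, abs_of_pos W.hδ])) x hx hr
      hfix).2.2.2.2.2
    set S := sl e κ (wseq κ W.c0 W.r0 W.r (-W.δ) x) (zseq κ W.c0 W.r0 W.r (-W.δ) x) 0 with hS
    show S < 0
    have hden : 0 < Bc * (Real.exp (-(-W.δ) / 2) * Real.cosh (e * (-W.δ) / 2) ^ (-(1 / e))) := by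
      have h2 : 0 < Real.cosh (e * (-W.δ) / 2) ^ (-(1 / e)) :=
        Real.rpow_pos_of_pos (Real.cosh_pos _) _
      have h3 := Real.exp_pos (-(-W.δ) / 2)
      positivity
    have h5 : |(W.c0 ((-W.δ : ℝ) : ℂ) + W.r0 ((-W.δ : ℝ) : ℂ) * x 0).re| ≤
        ‖W.c0 ((-W.δ : ℝ) : ℂ)‖ + ‖W.r0 ((-W.δ : ℝ) : ℂ)‖ := by
      have h6 := Complex.abs_re_le_norm (W.c0 ((-W.δ : ℝ) : ℂ) + W.r0 ((-W.δ : ℝ) : ℂ) * x 0)
      have h9 := norm_add_le (W.c0 ((-W.δ : ℝ) : ℂ)) (W.r0 ((-W.δ : ℝ) : ℂ) * x 0)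
      rw [norm_mul] at h9
      have h7 := norm_nonneg (W.r0 ((-W.δ : ℝ) : ℂ))
      have h8 : ‖x 0‖ ≤ 1 := hx 0
      nlinarith
    have h6 := W.d0_small'
    have h7 := (abs_le.1 h5).1
    have hnum : 1 - Real.exp (-(-W.δ)) -
        (W.c0 ((-W.δ : ℝ) : ℂ) + W.r0 ((-W.δ : ℝ) : ℂ) * x 0).re < 0 := by
      rw [neg_neg]
      linarith
    have h9 : S / Real.sqrt (1 + S ^ 2) < 0 := by
      rw [h1]
      exact div_neg_of_neg_of_pos hnum hden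
    by_contra hc
    push Not at hc
    have h10 : 0 ≤ S / Real.sqrt (1 + S ^ 2) := div_nonneg hc (Real.sqrt_nonneg _)
    linarith
  · intro x hx hr hfix
    have h1 := (hall W.δ (W.segr W.δ (by rw [abs_of_pos W.hδ])) x hx hr hfix).2.2.2.2.2
    set S := sl e κ (wseq κ W.c0 W.r0 W.r W.δ x) (zseq κ W.c0 W.r0 W.r W.δ x) 0 with hS
    show 0 < S
    have hden : 0 < Bc * (Real.exp (-W.δ / 2) * Real.cosh (e * W.δ / 2) ^ (-(1 / e))) := by
      have h2 : 0 < Real.cosh (e * W.δ / 2) ^ (-(1 / e)) :=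
        Real.rpow_pos_of_pos (Real.cosh_pos _) _
      have h3 := Real.exp_pos (-W.δ / 2)
      positivity
    have h5 : |(W.c0 (W.δ : ℂ) + W.r0 (W.δ : ℂ) * x 0).re| ≤
        ‖W.c0 (W.δ : ℂ)‖ + ‖W.r0 (W.δ : ℂ)‖ := by
      have h6 := Complex.abs_re_le_norm (W.c0 (W.δ : ℂ) + W.r0 (W.δ : ℂ) * x 0)
      have h9 := norm_add_le (W.c0 (W.δ : ℂ)) (W.r0 (W.δ : ℂ) * x 0)
      rw [norm_mul] at h9
      have h7 := norm_nonneg (W.r0 (W.δ : ℂ))
      have h8 : ‖x 0‖ ≤ 1 := hx 0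
      nlinarith
    have h6 := W.d0_small
    have h7 := (abs_le.1 h5).2
    have hnum : 0 < 1 - Real.exp (-W.δ) - (W.c0 (W.δ : ℂ) + W.r0 (W.δ : ℂ) * x 0).re := by
      linarith
    have h9 : 0 < S / Real.sqrt (1 + S ^ 2) := by
      rw [h1]
      exact div_pos hnum hden
    by_contra hc
    push Not at hc
    have h10 : S / Real.sqrt (1 + S ^ 2) ≤ 0 :=
      div_nonpos_of_nonpos_of_nonneg hc (Real.sqrt_nonneg _)
    linarith
  · intro x hx hfix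
    have ht := W.test x hx hfix
    have hD := W.seg W.η (by rw [abs_of_pos W.hη])
    have hsl := W.cosh_slit _ hD
    have e3 : cosh ((e : ℂ) * ((W.η : ℂ) * I) / 2) = ((Real.cos (e * W.η / 2) : ℝ) : ℂ) := by
      have : (e : ℂ) * ((W.η : ℂ) * I) / 2 = ((e * W.η / 2 : ℝ) : ℂ) * I := by
        push_cast
        ring
      rw [this, Complex.cosh_mul_I, Complex.ofReal_cos]
    rw [e3, Complex.ofReal_mem_slitPlane] at hsl
    show ((exp ((W.η : ℂ) * I / 2) - exp (-((W.η : ℂ) * I) / 2) -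
      exp ((W.η : ℂ) * I / 2) * (W.c0 ((W.η : ℂ) * I) + W.r0 ((W.η : ℂ) * I) * x 0)) *
      cosh (e * ((W.η : ℂ) * I) / 2) ^ ((1 / e : ℝ) : ℂ) / (Bc : ℂ)).re ≠ 0
    rw [e3, ← Complex.ofReal_cpow hsl.le, Complex.div_ofReal_re, Complex.re_mul_ofReal,
      Complex.sub_re]
    have h4 : (exp ((W.η : ℂ) * I / 2) - exp (-((W.η : ℂ) * I) / 2)).re = 0 := by
      have a1 : (W.η : ℂ) * I / 2 = ((W.η / 2 : ℝ) : ℂ) * I := by push_cast; ring
      have a2 : -((W.η : ℂ) * I) / 2 = ((-(W.η / 2) : ℝ) : ℂ) * I := by push_cast; ring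
      rw [a1, a2, Complex.sub_re, Complex.exp_ofReal_mul_I_re, Complex.exp_ofReal_mul_I_re,
        Real.cos_neg, sub_self]
    rw [h4, zero_sub]
    have h5 : 0 < Real.cos (e * W.η / 2) ^ (1 / e) := Real.rpow_pos_of_pos hsl _
    exact div_ne_zero (mul_ne_zero (neg_ne_zero.2 ht) h5.ne') hBpos.ne'

end Pool.Agent.helper31.EQ.W
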