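import Pool.Agent.helper31.EQ.W.Defs

/-!
# EQ-WB: the W-scheme with an explicit node `1`, definitions

The first unknown is `w 1`; the law of link `0` is solved for the position of link `0`:
`2 ζ 0 = c² (γ(w 1) - γ(exp (-p)))`.  Then `d 0 = C - ζ 0 - exp (-p)`, `d 1 = 1 - (C + ζ 0)/w 1`,
`Y 1 = d 1 + 1/w 1`, and the rest is as in `W/Defs.lean` with `d (n+2) = r (Y (n+1)) * x (n+1)`.
-/

namespace Pool.Agent.helper31.EQ.W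

open Complex

noncomputable section

/-- `ζ 0` -/
def z0B (e κ : ℝ) (p w1 : ℂ) : ℂ := ((c2 e κ : ℂ) * gl e w1 - (c2 e κ : ℂ) * gp e p) / 2

/-- `d 0` -/
def d0B (e κ : ℝ) (p w1 : ℂ) : ℂ := (Real.cosh κ : ℂ) - z0B e κ p w1 - exp (-p)

/-- `d 1` -/
def d1B (e κ : ℝ) (p w1 : ℂ) : ℂ := 1 - ((Real.cosh κ : ℂ) + z0B e κ p w1) / w1

/-- `Y 1` -/
def Y1B (e κ : ℝ) (p w1 : ℂ) : ℂ := d1B e κ p w1 + 1 / w1

/-- Positions: `posB n = Y (n+1)`; `w 1 = c1 p + r1 p * x 0`, `d (n+2) = r (Y (n+1)) * x (n+1)`. -/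
def posB (e κ : ℝ) (c1 r1 r : ℂ → ℂ) (p : ℂ) (x : ℕ → ℂ) : ℕ → ℂ
  | 0 => Y1B e κ p (c1 p + r1 p * x 0)
  | n + 1 => nxt κ (posB e κ c1 r1 r p x n) (r (posB e κ c1 r1 r p x n) * x (n + 1))

/-- Deviations: `devB n = d (n+1)`. -/
def devB (e κ : ℝ) (c1 r1 r : ℂ → ℂ) (p : ℂ) (x : ℕ → ℂ) : ℕ → ℂ
  | 0 => d1B e κ p (c1 p + r1 p * x 0)
  | n + 1 => r (posB e κ c1 r1 r p x n) * x (n + 1)

/-- The sequence map, with preconditioners `M1 p w1 d2`, `M Y d d'`. -/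
def PhiB (e κ : ℝ) (c1 r1 r : ℂ → ℂ) (M1 M : ℂ → ℂ → ℂ → ℂ) (p : ℂ) (x : ℕ → ℂ) : ℕ → ℂ
  | 0 => (r1 p * x 0 - M1 p (c1 p + r1 p * x 0) (devB e κ c1 r1 r p x 1) *
      FW e κ (posB e κ c1 r1 r p x 0) (devB e κ c1 r1 r p x 0) (devB e κ c1 r1 r p x 1)) / r1 p
  | n + 1 => (devB e κ c1 r1 r p x (n + 1) -
      M (posB e κ c1 r1 r p x (n + 1)) (devB e κ c1 r1 r p x (n + 1))
        (devB e κ c1 r1 r p x (n + 2)) *
      FW e κ (posB e κ c1 r1 r p x (n + 1)) (devB e κ c1 r1 r p x (n + 1))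
        (devB e κ c1 r1 r p x (n + 2))) / r (posB e κ c1 r1 r p x n)

end

end Pool.Agent.helper31.EQ.W
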