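import Pool.Agent.helper31.EQ.W.Data
import Pool.Agent.helper31.EQ.W.DefsB

/-!
# EQ-W3: the interface of the W-scheme with an explicit node `1`
-/

namespace Pool.Agent.helper31.EQ.W

open Set Metric Filter Topology Complex

/-- Everything the scheme needs for one pair `(e, κ)`. -/
structure WDataB (e κ : ℝ) where
  θ : ℝ
  hθ0 : 0 ≤ θ
  hθ1 : θ < 1
  /-- start parameters `p = log (w 0)` -/
  D : Set ℂ
  isOpen_D : IsOpen D
  /-- positions of link `1` / of the links `n ≥ 2` -/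
  Ω0 : Set ℂ
  Ω : Set ℂ
  /-- `w 1 = c1 p + r1 p * x 0`, `‖r (Y n)‖` is the radius of `d (n+1)`, `n ≥ 1` -/
  c1 : ℂ → ℂ
  r1 : ℂ → ℂ
  r : ℂ → ℂ
  /-- preconditioners of link `1` and of the links `n ≥ 2` -/
  M1 : ℂ → ℂ → ℂ → ℂ
  M : ℂ → ℂ → ℂ → ℂ
  c1_diff : DifferentiableOn ℂ c1 D
  r1_diff : DifferentiableOn ℂ r1 D
  r_diff : ∀ Y ∈ Ω0 ∪ Ω, DifferentiableAt ℂ r Y
  M1_diff : ∀ p ∈ D, ∀ x0 x1 : ℂ, ‖x0‖ ≤ 1 → ‖x1‖ ≤ 1 →
    DifferentiableAt ℂ (fun q : ℂ × ℂ × ℂ => M1 q.1 q.2.1 q.2.2)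
      (p, c1 p + r1 p * x0, r (Y1B e κ p (c1 p + r1 p * x0)) * x1)
  M_diff : ∀ Y ∈ Ω0 ∪ Ω, ∀ x x' : ℂ, ‖x‖ ≤ 1 → ‖x'‖ ≤ 1 →
    DifferentiableAt ℂ (fun q : ℂ × ℂ × ℂ => M q.1 q.2.1 q.2.2)
      (nxt κ Y (r Y * x), r Y * x, r (nxt κ Y (r Y * x)) * x')
  r1_ne : ∀ p ∈ D, r1 p ≠ 0
  r_ne : ∀ Y ∈ Ω0 ∪ Ω, r Y ≠ 0
  M1_ne : ∀ p ∈ D, ∀ x0 x1 : ℂ, ‖x0‖ ≤ 1 → ‖x1‖ ≤ 1 →
    M1 p (c1 p + r1 p * x0) (r (Y1B e κ p (c1 p + r1 p * x0)) * x1) ≠ 0
  M_ne : ∀ Y ∈ Ω0 ∪ Ω, ∀ x x' : ℂ, ‖x‖ ≤ 1 → ‖x'‖ ≤ 1 →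
    M (nxt κ Y (r Y * x)) (r Y * x) (r (nxt κ Y (r Y * x)) * x') ≠ 0
  c1_real : ∀ p : ℝ, (p : ℂ) ∈ D → (c1 p).im = 0
  r1_real : ∀ p : ℝ, (p : ℂ) ∈ D → (r1 p).im = 0
  r_real : ∀ Y : ℝ, (Y : ℂ) ∈ Ω0 ∪ Ω → (r Y).im = 0
  /-- reality of the preconditioners for real arguments in the trap -/
  M1_real : ∀ p : ℝ, (p : ℂ) ∈ D → ∀ x0 x1 : ℝ, |x0| ≤ 1 → |x1| ≤ 1 →
    (M1 p (c1 p + r1 p * x0) (r (Y1B e κ p (c1 p + r1 p * x0)) * x1)).im = 0
  M_real : ∀ Y : ℝ, (Y : ℂ) ∈ Ω0 ∪ Ω → ∀ x x' : ℝ, |x| ≤ 1 → |x'| ≤ 1 →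
    (M (nxt κ Y (r Y * x)) (r Y * x) (r (nxt κ Y (r Y * x)) * x')).im = 0
  cosh_slit : ∀ p ∈ D, cosh (e * p / 2) ∈ slitPlane
  w1_slit : ∀ p ∈ D, ∀ x : ℂ, ‖x‖ ≤ 1 → c1 p + r1 p * x ∈ slitPlane
  w1_norm : ∀ p ∈ D, ∀ x : ℂ, ‖x‖ ≤ 1 → 1 < ‖c1 p + r1 p * x‖
  inv0 : ∀ p ∈ D, ∀ x : ℂ, ‖x‖ ≤ 1 → Y1B e κ p (c1 p + r1 p * x) ∈ Ω0
  inv : ∀ Y ∈ Ω0 ∪ Ω, ∀ x : ℂ, ‖x‖ ≤ 1 → nxt κ Y (r Y * x) ∈ Ω
  den_ne : ∀ Y ∈ Ω0 ∪ Ω, 2 * (Real.cosh κ : ℂ) - Y ≠ 0
  one_sub_ne : ∀ Y ∈ Ω0 ∪ Ω, ∀ x : ℂ, ‖x‖ ≤ 1 → 1 - r Y * x ≠ 0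
  w_slit : ∀ Y ∈ Ω0 ∪ Ω, ∀ x : ℂ, ‖x‖ ≤ 1 → wn κ Y (r Y * x) ∈ slitPlane
  w_norm : ∀ Y ∈ Ω0 ∪ Ω, ∀ x : ℂ, ‖x‖ ≤ 1 → 1 < ‖wn κ Y (r Y * x)‖
  /-- closing at link `1` -/
  close0 : ∀ p ∈ D, ∀ x0 x1 : ℂ, ‖x0‖ ≤ 1 → ‖x1‖ ≤ 1 → ∀ w1 Y1, w1 = c1 p + r1 p * x0 →
    Y1 = Y1B e κ p w1 →
    ‖r1 p * x0 - M1 p w1 (r Y1 * x1) * FW e κ Y1 (d1B e κ p w1) (r Y1 * x1)‖ ≤ θ * ‖r1 p‖
  /-- closing at the links `n ≥ 2`: `Y` is the position of the previous link -/
  close : ∀ Y ∈ Ω0 ∪ Ω, ∀ x x' : ℂ, ‖x‖ ≤ 1 → ‖x'‖ ≤ 1 →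
    ‖r Y * x - M (nxt κ Y (r Y * x)) (r Y * x) (r (nxt κ Y (r Y * x)) * x') *
      FW e κ (nxt κ Y (r Y * x)) (r Y * x) (r (nxt κ Y (r Y * x)) * x')‖ ≤ θ * ‖r Y‖
  /-- real start parameters: the slope of node `0` is well defined -/
  real_small : ∀ p : ℝ, (p : ℂ) ∈ D → ∀ x : ℕ → ℂ, (∀ n, ‖x n‖ ≤ 1) → (∀ n, (x n).im = 0) →
    (∀ n, x n = PhiB e κ c1 r1 r M1 M (p : ℂ) x n) →
    |2 * Real.sinh (p / 2) - Real.exp (p / 2) * (d0B e κ p (c1 p + r1 p * x 0)).re| *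
      Real.cosh (e * p / 2) ^ (1 / e) < 2 * Real.sinh (κ / 2) * Real.cosh (e * κ / 2) ^ (1 / e)
  /-- real positions converge to `exp (-κ)` -/
  lam : ℝ
  hlam0 : 0 ≤ lam
  hlam1 : lam < 1
  contr : ∀ Y : ℝ, (Y : ℂ) ∈ Ω0 ∪ Ω → ∀ x : ℝ, |x| ≤ 1 →
    |(nxt κ Y (r Y * x)).re - Real.exp (-κ)| ≤ lam * |Y - Real.exp (-κ)|
  B : ℝ
  r_le : ∀ Y : ℝ, (Y : ℂ) ∈ Ω0 ∪ Ω → ‖r Y‖ ≤ B * |Y - Real.exp (-κ)|
  η : ℝ
  hη : 0 < η
  seg : ∀ y : ℝ, |y| ≤ η → ((y : ℂ) * I) ∈ D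
  δ : ℝ
  hδ : 0 < δ
  segr : ∀ y : ℝ, |y| ≤ δ → (y : ℂ) ∈ D
  d0_small : ∀ x : ℕ → ℂ, (∀ n, ‖x n‖ ≤ 1) → (∀ n, (x n).im = 0) →
    (∀ n, x n = PhiB e κ c1 r1 r M1 M (δ : ℂ) x n) →
    (d0B e κ (δ : ℂ) (c1 (δ : ℂ) + r1 (δ : ℂ) * x 0)).re < 1 - Real.exp (-δ)
  d0_small' : ∀ x : ℕ → ℂ, (∀ n, ‖x n‖ ≤ 1) → (∀ n, (x n).im = 0) →
    (∀ n, x n = PhiB e κ c1 r1 r M1 M ((-δ : ℝ) : ℂ) x n) →
    1 - Real.exp δ < (d0B e κ ((-δ : ℝ) : ℂ) (c1 ((-δ : ℝ) : ℂ) + r1 ((-δ : ℝ) : ℂ) * x 0)).re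
  /-- the test point `p = iη`, `w 0 = exp (iη)` -/
  test : ∀ x : ℕ → ℂ, (∀ n, ‖x n‖ ≤ 1) →
    (∀ n, x n = PhiB e κ c1 r1 r M1 M ((η : ℂ) * I) x n) →
    (exp ((η : ℂ) * I / 2) *
      d0B e κ ((η : ℂ) * I) (c1 ((η : ℂ) * I) + r1 ((η : ℂ) * I) * x 0)).re ≠ 0

variable {e κ : ℝ}

private theorem DataB_half_slit {z : ℂ} (h : ‖z‖ < 1) : (1 + z) / 2 ∈ slitPlane := by
  rw [Complex.mem_slitPlane_iff]
  left
  have h4 := (abs_lt.1 ((Complex.abs_re_le_norm z).trans_lt h)).1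
  have h5 : ((1 + z) / 2).re = (1 + z.re) / 2 := by
    have : (1 + z) / 2 = (1 + z) / ((2 : ℝ) : ℂ) := by push_cast; rfl
    rw [this, Complex.div_ofReal_re, Complex.add_re, Complex.one_re]
  rw [h5]
  linarith

private theorem DataB_gp_diff {e : ℝ} {p : ℂ} (hp : cosh (e * p / 2) ∈ slitPlane) :
    DifferentiableAt ℂ (gp e) p := by
  have h1 : DifferentiableAt ℂ (fun p : ℂ => exp (-p)) p := by fun_prop
  have h2 : DifferentiableAt ℂ (fun p : ℂ => cosh (e * p / 2)) p := by fun_prop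
  exact h1.mul (h2.cpow_const hp)

private theorem DataB_wn_diff {f g : ℂ → ℂ} {z : ℂ} (hf : DifferentiableAt ℂ f z)
    (hg : DifferentiableAt ℂ g z) (h : 1 - g z ≠ 0) :
    DifferentiableAt ℂ (fun z => wn κ (f z) (g z)) z :=
  (hf.const_sub _).div (hg.const_sub 1) h

private theorem DataB_at {O : Set ℂ} {τ : ℂ → ℂ} (hO : IsOpen O) (hτ : DifferentiableOn ℂ τ O)
    {z : ℂ} (hz : z ∈ O) : DifferentiableAt ℂ τ z :=
  (hτ z hz).differentiableAt (hO.mem_nhds hz)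

private theorem DataB_re {z : ℂ} (h : z.im = 0) : ((z.re : ℝ) : ℂ) = z :=
  Complex.ext rfl (by rw [Complex.ofReal_im, h])

private theorem DataB_gl_real {e w : ℝ} (hw : 0 < w) : gl e (w : ℂ) = ((gr e w : ℝ) : ℂ) := by
  unfold gl gr
  have h1 : (w : ℂ) ^ (-(e : ℂ)) = ((w ^ (-e) : ℝ) : ℂ) := by
    rw [Complex.ofReal_cpow hw.le]
    push_cast
    rfl
  have h2 : 0 < w ^ (-e) := Real.rpow_pos_of_pos hw _
  have h3 : (1 + ((w ^ (-e) : ℝ) : ℂ)) / 2 = (((1 + w ^ (-e)) / 2 : ℝ) : ℂ) := by push_cast; rfl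
  have h4 : (-((2 / e : ℝ) : ℂ)) = ((-(2 / e) : ℝ) : ℂ) := by push_cast; rfl
  rw [h1, h3, h4, ← Complex.ofReal_cpow (by positivity)]

private theorem DataB_gp_real {e : ℝ} (he : 0 < e) (p : ℝ) :
    gp e (p : ℂ) = ((gr e (Real.exp (-p)) : ℝ) : ℂ) := by
  rw [gr_exp he]
  unfold gp
  have h1 : exp (-(p : ℂ)) = ((Real.exp (-p) : ℝ) : ℂ) := by push_cast; rfl
  have h2 : cosh ((e : ℂ) * p / 2) = ((Real.cosh (e * p / 2) : ℝ) : ℂ) := by push_cast; rfl
  have h4 : (-((2 / e : ℝ) : ℂ)) = ((-(2 / e) : ℝ) : ℂ) := by push_cast; rfl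
  rw [h1, h2, h4, ← Complex.ofReal_cpow (Real.cosh_pos _).le, ← Complex.ofReal_mul]

private theorem DataB_gs_real {e y : ℝ} (he : 0 < e) (hy : 0 < y) :
    gs e (y : ℂ) = ((gr e y : ℝ) : ℂ) := by
  have h0 : gr e y = y ^ 2 * gr e (1 / y) := by
    have h1 := gr_inv he (one_div_pos.2 hy)
    rw [one_div_one_div] at h1
    rw [h1]
    have h2 := hy.ne'
    field_simp
  have h1 : gr e (1 / y) = ((1 + y ^ e) / 2) ^ (-(2 / e)) := by
    unfold gr
    rw [one_div, Real.inv_rpow hy.le, Real.rpow_neg hy.le, inv_inv]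
  have h2 : 0 < y ^ e := Real.rpow_pos_of_pos hy _
  have h3 : (1 + ((y ^ e : ℝ) : ℂ)) / 2 = (((1 + y ^ e) / 2 : ℝ) : ℂ) := by push_cast; rfl
  have h4 : (-((2 / e : ℝ) : ℂ)) = ((-(2 / e) : ℝ) : ℂ) := by push_cast; rfl
  unfold gs
  rw [h0, h1, ← Complex.ofReal_cpow hy.le, h3, h4, ← Complex.ofReal_cpow (by positivity),
    ← Complex.ofReal_pow, ← Complex.ofReal_mul]

private theorem DataB_wn_real (Y d : ℝ) :
    wn κ (Y : ℂ) (d : ℂ) = (((2 * Real.cosh κ - Y) / (1 - d) : ℝ) : ℂ) := by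
  unfold wn
  push_cast
  rfl

private theorem DataB_nxt_real (Y d : ℝ) :
    nxt κ (Y : ℂ) (d : ℂ) = ((d + (1 - d) / (2 * Real.cosh κ - Y) : ℝ) : ℂ) := by
  unfold nxt
  push_cast
  rfl

private theorem DataB_FW_real (he : 0 < e) (Y d d' : ℝ) (h : wn κ (Y : ℂ) (d' : ℂ) ∈ slitPlane)
    (h2 : 0 < Y - d) :
    FW e κ Y d d' = ((c2 e κ * gr e ((2 * Real.cosh κ - Y) / (1 - d')) -
      c2 e κ * gr e (Y - d) - 2 * (Real.cosh κ - Y) : ℝ) : ℂ) := by
  rw [DataB_wn_real, Complex.ofReal_mem_slitPlane] at h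
  unfold FW
  rw [DataB_wn_real, DataB_gl_real h, ← Complex.ofReal_sub Y d, DataB_gs_real he h2]
  push_cast
  rfl

private theorem DataB_z0_real (he : 0 < e) (p w : ℝ) (hw : 0 < w) :
    z0B e κ (p : ℂ) (w : ℂ) =
      (((c2 e κ * gr e w - c2 e κ * gr e (Real.exp (-p))) / 2 : ℝ) : ℂ) := by
  unfold z0B
  rw [DataB_gl_real hw, DataB_gp_real he]
  push_cast
  rfl

private theorem DataB_inv_slit {w : ℂ} (h1 : w ∈ slitPlane) (h2 : 1 < ‖w‖) :
    1 / w ∈ slitPlane ∧ ‖1 / w‖ < 1 := by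
  rw [one_div]
  refine ⟨?_, ?_⟩
  · have h0 := Complex.slitPlane_ne_zero h1
    have hn := Complex.normSq_pos.2 h0
    rw [Complex.mem_slitPlane_iff] at h1 ⊢
    rw [Complex.inv_re, Complex.inv_im]
    rcases h1 with h1 | h1
    · exact Or.inl (div_pos h1 hn)
    · exact Or.inr (div_ne_zero (neg_ne_zero.2 h1) hn.ne')
  rw [norm_inv]
  exact inv_lt_one_of_one_lt₀ h2

/-- The value `w 1`. -/
private noncomputable def DataB_w (W : WDataB e κ) (p : ℂ) (x : ℕ → ℂ) : ℂ :=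
  W.c1 p + W.r1 p * x 0

private noncomputable def DataB_P (W : WDataB e κ) (p : ℂ) (x : ℕ → ℂ) (n : ℕ) : ℂ :=
  posB e κ W.c1 W.r1 W.r p x n

private noncomputable def DataB_d (W : WDataB e κ) (p : ℂ) (x : ℕ → ℂ) (n : ℕ) : ℂ :=
  devB e κ W.c1 W.r1 W.r p x n

private theorem DataB_P_zero (W : WDataB e κ) (p : ℂ) (x : ℕ → ℂ) :
    DataB_P W p x 0 = Y1B e κ p (DataB_w W p x) := rfl

private theorem DataB_P_succ (W : WDataB e κ) (p : ℂ) (x : ℕ → ℂ) (n : ℕ) :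
    DataB_P W p x (n + 1) = nxt κ (DataB_P W p x n) (DataB_d W p x (n + 1)) := rfl

private theorem DataB_d_zero (W : WDataB e κ) (p : ℂ) (x : ℕ → ℂ) :
    DataB_d W p x 0 = d1B e κ p (DataB_w W p x) := rfl

private theorem DataB_d_succ (W : WDataB e κ) (p : ℂ) (x : ℕ → ℂ) (n : ℕ) :
    DataB_d W p x (n + 1) = W.r (DataB_P W p x n) * x (n + 1) := rfl

private theorem DataB_Phi_zero (W : WDataB e κ) (p : ℂ) (x : ℕ → ℂ) :
    PhiB e κ W.c1 W.r1 W.r W.M1 W.M p x 0 =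
      (W.r1 p * x 0 - W.M1 p (DataB_w W p x) (DataB_d W p x 1) *
        FW e κ (DataB_P W p x 0) (DataB_d W p x 0) (DataB_d W p x 1)) / W.r1 p := rfl

private theorem DataB_Phi_succ (W : WDataB e κ) (p : ℂ) (x : ℕ → ℂ) (n : ℕ) :
    PhiB e κ W.c1 W.r1 W.r W.M1 W.M p x (n + 1) =
      (DataB_d W p x (n + 1) -
        W.M (DataB_P W p x (n + 1)) (DataB_d W p x (n + 1)) (DataB_d W p x (n + 2)) *
        FW e κ (DataB_P W p x (n + 1)) (DataB_d W p x (n + 1)) (DataB_d W p x (n + 2))) /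
        W.r (DataB_P W p x n) := rfl

/-- All positions are in `Ω0 ∪ Ω`. -/
private theorem DataB_mem (W : WDataB e κ) {p : ℂ} (hp : p ∈ W.D) {x : ℕ → ℂ}
    (hx : ∀ n, ‖x n‖ ≤ 1) (n : ℕ) : DataB_P W p x n ∈ W.Ω0 ∪ W.Ω := by
  induction n with
  | zero => exact Or.inl (W.inv0 p hp (x 0) (hx 0))
  | succ n ih => exact Or.inr (W.inv _ ih (x (n + 1)) (hx _))

private theorem DataB_w_slit (W : WDataB e κ) {p : ℂ} (hp : p ∈ W.D) {x : ℕ → ℂ}
    (hx : ∀ n, ‖x n‖ ≤ 1) : DataB_w W p x ∈ slitPlane ∧ 1 < ‖DataB_w W p x‖ :=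
  ⟨W.w1_slit p hp (x 0) (hx 0), W.w1_norm p hp (x 0) (hx 0)⟩

/-- `posB n - devB n` is the inverse of a number in the slit plane of norm `> 1`. -/
private theorem DataB_sub (W : WDataB e κ) {p : ℂ} (hp : p ∈ W.D) {x : ℕ → ℂ}
    (hx : ∀ n, ‖x n‖ ≤ 1) (n : ℕ) :
    DataB_P W p x n - DataB_d W p x n ∈ slitPlane ∧
      ‖DataB_P W p x n - DataB_d W p x n‖ < 1 := by
  rcases n with _ | n
  · have h : DataB_P W p x 0 - DataB_d W p x 0 = 1 / DataB_w W p x := by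
      rw [DataB_P_zero, DataB_d_zero]
      unfold Y1B
      ring
    rw [h]
    exact DataB_inv_slit (DataB_w_slit W hp hx).1 (DataB_w_slit W hp hx).2
  · have h : DataB_P W p x (n + 1) - DataB_d W p x (n + 1) =
        1 / wn κ (DataB_P W p x n) (DataB_d W p x (n + 1)) :=
      nxt_sub (W.den_ne _ (DataB_mem W hp hx n))
        (W.one_sub_ne _ (DataB_mem W hp hx n) (x (n + 1)) (hx (n + 1)))
    rw [h]
    exact DataB_inv_slit (W.w_slit _ (DataB_mem W hp hx n) (x (n + 1)) (hx (n + 1)))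
      (W.w_norm _ (DataB_mem W hp hx n) (x (n + 1)) (hx (n + 1)))

section Diff

variable {O : Set ℂ} {τ : ℂ → ℂ} {x : ℂ → ℕ → ℂ}

private theorem DataB_w_diff (W : WDataB e κ)
    (hO : IsOpen O) (hτ : DifferentiableOn ℂ τ O) (hm : MapsTo τ O W.D)
    (hx : DifferentiableOn ℂ (fun z => x z 0) O) {z : ℂ} (hz : z ∈ O) :
    DifferentiableAt ℂ (fun z => DataB_w W (τ z) (x z)) z := by
  have h2 : DifferentiableAt ℂ (fun z => W.r1 (τ z)) z :=
    DifferentiableAt.comp z (DataB_at W.isOpen_D W.r1_diff (hm hz)) (DataB_at hO hτ hz)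
  have h3 : DifferentiableAt ℂ (fun z => W.c1 (τ z)) z :=
    DifferentiableAt.comp z (DataB_at W.isOpen_D W.c1_diff (hm hz)) (DataB_at hO hτ hz)
  exact h3.add (h2.mul (DataB_at hO hx hz))

private theorem DataB_z0_diff (he : 0 < e) (W : WDataB e κ)
    (hO : IsOpen O) (hτ : DifferentiableOn ℂ τ O) (hm : MapsTo τ O W.D)
    (hx : DifferentiableOn ℂ (fun z => x z 0) O)
    (hb : ∀ z ∈ O, ∀ n, ‖x z n‖ ≤ 1) {z : ℂ} (hz : z ∈ O) :
    DifferentiableAt ℂ (fun z => z0B e κ (τ z) (DataB_w W (τ z) (x z))) z := by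
  have h1 := DataB_w_slit W (hm hz) (hb z hz)
  have h2 : DifferentiableAt ℂ (fun z => gl e (DataB_w W (τ z) (x z))) z :=
    DifferentiableAt.comp z (differentiableAt_gl he h1.1 h1.2) (DataB_w_diff W hO hτ hm hx hz)
  have h3 : DifferentiableAt ℂ (fun z => gp e (τ z)) z :=
    DifferentiableAt.comp z (DataB_gp_diff (W.cosh_slit _ (hm hz))) (DataB_at hO hτ hz)
  exact ((h2.const_mul (c2 e κ : ℂ)).sub (h3.const_mul (c2 e κ : ℂ))).div_const 2

private theorem DataB_d0_diff (he : 0 < e) (W : WDataB e κ)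
    (hO : IsOpen O) (hτ : DifferentiableOn ℂ τ O) (hm : MapsTo τ O W.D)
    (hx : DifferentiableOn ℂ (fun z => x z 0) O)
    (hb : ∀ z ∈ O, ∀ n, ‖x z n‖ ≤ 1) {z : ℂ} (hz : z ∈ O) :
    DifferentiableAt ℂ (fun z => d0B e κ (τ z) (DataB_w W (τ z) (x z))) z := by
  have h1 : DifferentiableAt ℂ (fun z => exp (-(τ z))) z := (DataB_at hO hτ hz).neg.cexp
  exact ((DataB_z0_diff he W hO hτ hm hx hb hz).const_sub _).sub h1

private theorem DataB_d1_diff (he : 0 < e) (W : WDataB e κ)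
    (hO : IsOpen O) (hτ : DifferentiableOn ℂ τ O) (hm : MapsTo τ O W.D)
    (hx : DifferentiableOn ℂ (fun z => x z 0) O)
    (hb : ∀ z ∈ O, ∀ n, ‖x z n‖ ≤ 1) {z : ℂ} (hz : z ∈ O) :
    DifferentiableAt ℂ (fun z => DataB_d W (τ z) (x z) 0) z := by
  have h0 := Complex.slitPlane_ne_zero (DataB_w_slit W (hm hz) (hb z hz)).1
  exact (((DataB_z0_diff he W hO hτ hm hx hb hz).const_add _).div
    (DataB_w_diff W hO hτ hm hx hz) h0).const_sub 1

private theorem DataB_pos_diff (he : 0 < e) (W : WDataB e κ)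
    (hO : IsOpen O) (hτ : DifferentiableOn ℂ τ O) (hm : MapsTo τ O W.D)
    (hx : ∀ n, DifferentiableOn ℂ (fun z => x z n) O)
    (hb : ∀ z ∈ O, ∀ n, ‖x z n‖ ≤ 1) {z : ℂ} (hz : z ∈ O) (n : ℕ) :
    DifferentiableAt ℂ (fun z => DataB_P W (τ z) (x z) n) z := by
  induction n with
  | zero =>
    have h0 := Complex.slitPlane_ne_zero (DataB_w_slit W (hm hz) (hb z hz)).1
    exact (DataB_d1_diff he W hO hτ hm (hx 0) hb hz).add
      ((differentiableAt_const 1).div (DataB_w_diff W hO hτ hm (hx 0) hz) h0)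
  | succ n ih =>
    have hY := DataB_mem W (hm hz) (hb z hz) n
    have h2 : DifferentiableAt ℂ (fun z => W.r (DataB_P W (τ z) (x z) n)) z :=
      DifferentiableAt.comp z (W.r_diff _ hY) ih
    have h3 := h2.mul (DataB_at hO (hx (n + 1)) hz)
    exact h3.add ((h3.const_sub 1).div (ih.const_sub _) (W.den_ne _ hY))

private theorem DataB_dev_diff (he : 0 < e) (W : WDataB e κ)
    (hO : IsOpen O) (hτ : DifferentiableOn ℂ τ O) (hm : MapsTo τ O W.D)
    (hx : ∀ n, DifferentiableOn ℂ (fun z => x z n) O)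
    (hb : ∀ z ∈ O, ∀ n, ‖x z n‖ ≤ 1) {z : ℂ} (hz : z ∈ O) (n : ℕ) :
    DifferentiableAt ℂ (fun z => DataB_d W (τ z) (x z) n) z := by
  rcases n with _ | n
  · exact DataB_d1_diff he W hO hτ hm (hx 0) hb hz
  · have hY := DataB_mem W (hm hz) (hb z hz) n
    have h2 : DifferentiableAt ℂ (fun z => W.r (DataB_P W (τ z) (x z) n)) z :=
      DifferentiableAt.comp z (W.r_diff _ hY) (DataB_pos_diff he W hO hτ hm hx hb hz n)
    exact h2.mul (DataB_at hO (hx (n + 1)) hz)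

private theorem DataB_FW_diff (he : 0 < e) (W : WDataB e κ)
    (hO : IsOpen O) (hτ : DifferentiableOn ℂ τ O) (hm : MapsTo τ O W.D)
    (hx : ∀ n, DifferentiableOn ℂ (fun z => x z n) O)
    (hb : ∀ z ∈ O, ∀ n, ‖x z n‖ ≤ 1) {z : ℂ} (hz : z ∈ O) (n : ℕ) :
    DifferentiableAt ℂ (fun z => FW e κ (DataB_P W (τ z) (x z) n) (DataB_d W (τ z) (x z) n)
      (DataB_d W (τ z) (x z) (n + 1))) z := by
  have hpos := fun n => DataB_pos_diff he W hO hτ hm hx hb hz n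
  have hdev := fun n => DataB_dev_diff he W hO hτ hm hx hb hz n
  have hmem := fun n => DataB_mem W (hm hz) (hb z hz) n
  have h1 : DifferentiableAt ℂ (fun z => wn κ (DataB_P W (τ z) (x z) n)
      (DataB_d W (τ z) (x z) (n + 1))) z :=
    DataB_wn_diff (hpos n) (hdev (n + 1))
      (W.one_sub_ne _ (hmem n) (x z (n + 1)) (hb z hz (n + 1)))
  have hgl : DifferentiableAt ℂ (fun z => gl e (wn κ (DataB_P W (τ z) (x z) n)
      (DataB_d W (τ z) (x z) (n + 1)))) z :=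
    DifferentiableAt.comp z (differentiableAt_gl he
      (W.w_slit _ (hmem n) (x z (n + 1)) (hb z hz (n + 1)))
      (W.w_norm _ (hmem n) (x z (n + 1)) (hb z hz (n + 1)))) h1
  have hs := DataB_sub W (hm hz) (hb z hz) n
  have h2 : DifferentiableAt ℂ (fun z => gs e (DataB_P W (τ z) (x z) n -
      DataB_d W (τ z) (x z) n)) z :=
    DifferentiableAt.comp z (differentiableAt_gs he hs.1 hs.2) ((hpos n).sub (hdev n))
  exact ((hgl.const_mul (c2 e κ : ℂ)).sub (h2.const_mul (c2 e κ : ℂ))).sub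
    (((hpos n).const_sub (Real.cosh κ : ℂ)).const_mul 2)

end Diff

private theorem DataB_maps (W : WDataB e κ) {p : ℂ} (hp : p ∈ W.D) {x : ℕ → ℂ}
    (hx : ∀ n, ‖x n‖ ≤ 1) (n : ℕ) : ‖PhiB e κ W.c1 W.r1 W.r W.M1 W.M p x n‖ ≤ W.θ := by
  rcases n with _ | n
  · rw [DataB_Phi_zero, norm_div, div_le_iff₀ (norm_pos_iff.2 (W.r1_ne p hp))]
    exact W.close0 p hp (x 0) (x 1) (hx 0) (hx 1) _ _ rfl rfl
  · rw [DataB_Phi_succ, norm_div, div_le_iff₀ (norm_pos_iff.2 (W.r_ne _ (DataB_mem W hp hx n)))]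
    exact W.close _ (DataB_mem W hp hx n) (x (n + 1)) (x (n + 2)) (hx _) (hx _)

private theorem DataB_hol (he : 0 < e) (W : WDataB e κ) :
    HolFamilyR W.D (fun _ _ => 1) (PhiB e κ W.c1 W.r1 W.r W.M1 W.M) := by
  intro O τ x hO hτ hm hx hb n z hz
  refine DifferentiableAt.differentiableWithinAt ?_
  have hb' : ∀ z ∈ O, ∀ n, ‖x z n‖ ≤ 1 := fun z hz n => hb z hz n
  have hτz := DataB_at hO hτ hz
  have hpos := fun n => DataB_pos_diff he W hO hτ hm hx hb' hz n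
  have hdev := fun n => DataB_dev_diff he W hO hτ hm hx hb' hz n
  have hFW := fun n => DataB_FW_diff he W hO hτ hm hx hb' hz n
  have hmem := fun n => DataB_mem W (hm hz) (hb' z hz) n
  rcases n with _ | n
  · have h0 : DifferentiableAt ℂ (fun z => W.r1 (τ z)) z :=
      DifferentiableAt.comp z (DataB_at W.isOpen_D W.r1_diff (hm hz)) hτz
    have h1 : DifferentiableAt ℂ (fun z => W.M1 (τ z) (DataB_w W (τ z) (x z))
        (DataB_d W (τ z) (x z) 1)) z :=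
      DifferentiableAt.comp (g := fun q : ℂ × ℂ × ℂ => W.M1 q.1 q.2.1 q.2.2)
        (f := fun z => (τ z, DataB_w W (τ z) (x z), DataB_d W (τ z) (x z) 1))
        z (W.M1_diff _ (hm hz) (x z 0) (x z 1) (hb' z hz 0) (hb' z hz 1))
        (hτz.prodMk ((DataB_w_diff W hO hτ hm (hx 0) hz).prodMk (hdev 1)))
    exact ((h0.mul (DataB_at hO (hx 0) hz)).sub (h1.mul (hFW 0))).div h0 (W.r1_ne _ (hm hz))
  · have h0 : DifferentiableAt ℂ (fun z => W.r (DataB_P W (τ z) (x z) n)) z :=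
      DifferentiableAt.comp z (W.r_diff _ (hmem n)) (hpos n)
    have h1 : DifferentiableAt ℂ (fun z => W.M (DataB_P W (τ z) (x z) (n + 1))
        (DataB_d W (τ z) (x z) (n + 1)) (DataB_d W (τ z) (x z) (n + 2))) z :=
      DifferentiableAt.comp (g := fun q : ℂ × ℂ × ℂ => W.M q.1 q.2.1 q.2.2)
        (f := fun z => (DataB_P W (τ z) (x z) (n + 1), DataB_d W (τ z) (x z) (n + 1),
          DataB_d W (τ z) (x z) (n + 2)))
        z (W.M_diff _ (hmem n) (x z (n + 1)) (x z (n + 2)) (hb' z hz _)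
        (hb' z hz _)) ((hpos (n + 1)).prodMk ((hdev (n + 1)).prodMk (hdev (n + 2))))
    exact ((hdev (n + 1)).sub (h1.mul (hFW (n + 1)))).div h0 (W.r_ne _ (hmem n))

section RealPart

variable {p : ℝ} {x : ℕ → ℂ}

private theorem DataB_w_im (W : WDataB e κ) (hp : (p : ℂ) ∈ W.D)
    (hr : ∀ n, (x n).im = 0) : (DataB_w W p x).im = 0 := by
  unfold DataB_w
  rw [Complex.add_im, Complex.mul_im, hr 0, W.r1_real p hp, W.c1_real p hp]
  ring

private theorem DataB_w_gt (W : WDataB e κ) (hp : (p : ℂ) ∈ W.D)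
    (hx : ∀ n, ‖x n‖ ≤ 1) (hr : ∀ n, (x n).im = 0) : 1 < (DataB_w W p x).re := by
  obtain ⟨h1, h2⟩ := DataB_w_slit W hp hx
  have h3 := DataB_re (DataB_w_im W hp hr)
  rw [← h3, Complex.ofReal_mem_slitPlane] at h1
  rw [← h3, Complex.norm_real, Real.norm_eq_abs, abs_of_pos h1] at h2
  exact h2

private theorem DataB_z0_re (he : 0 < e) (W : WDataB e κ) (hp : (p : ℂ) ∈ W.D)
    (hx : ∀ n, ‖x n‖ ≤ 1) (hr : ∀ n, (x n).im = 0) :
    z0B e κ p (DataB_w W p x) = (((c2 e κ * gr e (DataB_w W p x).re -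
      c2 e κ * gr e (Real.exp (-p))) / 2 : ℝ) : ℂ) := by
  have h1 := DataB_w_gt W hp hx hr
  have h2 := DataB_z0_real (κ := κ) he p (DataB_w W p x).re (by linarith)
  rw [DataB_re (DataB_w_im W hp hr)] at h2
  exact h2

private theorem DataB_d0_im (he : 0 < e) (W : WDataB e κ) (hp : (p : ℂ) ∈ W.D)
    (hx : ∀ n, ‖x n‖ ≤ 1) (hr : ∀ n, (x n).im = 0) :
    (d0B e κ p (DataB_w W p x)).im = 0 := by
  unfold d0B
  have h1 : exp (-(p : ℂ)) = ((Real.exp (-p) : ℝ) : ℂ) := by push_cast; rfl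
  rw [DataB_z0_re he W hp hx hr, h1, ← Complex.ofReal_sub, ← Complex.ofReal_sub,
    Complex.ofReal_im]

private theorem DataB_real1 (he : 0 < e) (W : WDataB e κ) (hp : (p : ℂ) ∈ W.D)
    (hx : ∀ n, ‖x n‖ ≤ 1) (hr : ∀ n, (x n).im = 0) (n : ℕ) :
    (DataB_P W p x n).im = 0 ∧ (DataB_d W p x n).im = 0 := by
  induction n with
  | zero =>
    have h1 := DataB_z0_re he W hp hx hr
    have h2 := DataB_re (DataB_w_im W hp hr)
    have h3 : (DataB_d W p x 0).im = 0 := by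
      rw [DataB_d_zero]
      unfold d1B
      rw [h1, ← h2, ← Complex.ofReal_one, ← Complex.ofReal_add, ← Complex.ofReal_div,
        ← Complex.ofReal_sub, Complex.ofReal_im]
    refine ⟨?_, h3⟩
    have h4 : DataB_P W p x 0 = DataB_d W p x 0 + 1 / DataB_w W p x := rfl
    rw [h4, Complex.add_im, h3, ← h2, ← Complex.ofReal_one, ← Complex.ofReal_div,
      Complex.ofReal_im, add_zero]
  | succ n ih =>
    have hY := DataB_mem W hp hx n
    have h2 : (W.r (DataB_P W p x n)).im = 0 := by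
      have h3 := W.r_real (DataB_P W p x n).re (by rw [DataB_re ih.1]; exact hY)
      rwa [DataB_re ih.1] at h3
    have h4 : (DataB_d W p x (n + 1)).im = 0 := by
      rw [DataB_d_succ, Complex.mul_im, hr (n + 1), h2]
      ring
    refine ⟨?_, h4⟩
    rw [DataB_P_succ, ← DataB_re h4, ← DataB_re ih.1, DataB_nxt_real, Complex.ofReal_im]

private theorem DataB_FWp (he : 0 < e) (W : WDataB e κ) (hp : (p : ℂ) ∈ W.D)
    (hx : ∀ n, ‖x n‖ ≤ 1) (hr : ∀ n, (x n).im = 0) (n : ℕ) :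
    FW e κ (DataB_P W p x n) (DataB_d W p x n) (DataB_d W p x (n + 1)) =
      ((c2 e κ * gr e (wn κ (DataB_P W p x n) (DataB_d W p x (n + 1))).re -
      c2 e κ * gr e ((DataB_P W p x n).re - (DataB_d W p x n).re) -
      2 * (Real.cosh κ - (DataB_P W p x n).re) : ℝ) : ℂ) := by
  have h0 := DataB_re (DataB_real1 he W hp hx hr n).1
  have h1 := DataB_re (DataB_real1 he W hp hx hr (n + 1)).2
  have h2 := DataB_re (DataB_real1 he W hp hx hr n).2
  have hs : wn κ (DataB_P W p x n) (DataB_d W p x (n + 1)) ∈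
      slitPlane := W.w_slit _ (DataB_mem W hp hx n) (x (n + 1)) (hx (n + 1))
  have h3 := (DataB_sub W hp hx n).1
  rw [← h0, ← h2, ← Complex.ofReal_sub, Complex.ofReal_mem_slitPlane] at h3
  have h4 : (wn κ (DataB_P W p x n) (DataB_d W p x (n + 1))).re =
      (2 * Real.cosh κ - (DataB_P W p x n).re) /
        (1 - (DataB_d W p x (n + 1)).re) := by
    conv_lhs => rw [← h0, ← h1, DataB_wn_real, Complex.ofReal_re]
  rw [h4]
  have h6 := DataB_FW_real (e := e) (κ := κ) he (DataB_P W p x n).re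
    (DataB_d W p x n).re (DataB_d W p x (n + 1)).re
    (by rw [h0, h1]; exact hs) h3
  rw [h0, h1, h2] at h6
  exact h6

private theorem DataB_real (he : 0 < e) (W : WDataB e κ) (hp : (p : ℂ) ∈ W.D)
    (hx : ∀ n, ‖x n‖ ≤ 1) (hr : ∀ n, (x n).im = 0) (n : ℕ) :
    (PhiB e κ W.c1 W.r1 W.r W.M1 W.M p x n).im = 0 := by
  rcases n with _ | n
  · have hM : (W.M1 p (DataB_w W p x) (DataB_d W p x 1)).im = 0 := by
      have h := W.M1_real p hp (x 0).re (x 1).re ((Complex.abs_re_le_norm _).trans (hx 0))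
        ((Complex.abs_re_le_norm _).trans (hx 1))
      rw [DataB_re (hr 0), DataB_re (hr 1)] at h
      exact h
    rw [DataB_Phi_zero, DataB_FWp he W hp hx hr, ← DataB_re (hr 0),
      ← DataB_re hM, ← DataB_re (W.r1_real p hp), ← Complex.ofReal_mul,
      ← Complex.ofReal_mul, ← Complex.ofReal_sub, ← Complex.ofReal_div, Complex.ofReal_im]
  · have h0 := DataB_re (DataB_real1 he W hp hx hr n).1
    have hM : (W.M (DataB_P W p x (n + 1)) (DataB_d W p x (n + 1))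
        (DataB_d W p x (n + 2))).im = 0 := by
      have h := W.M_real (DataB_P W p x n).re (by rw [h0]; exact DataB_mem W hp hx n)
        (x (n + 1)).re (x (n + 2)).re ((Complex.abs_re_le_norm _).trans (hx _))
        ((Complex.abs_re_le_norm _).trans (hx _))
      rw [DataB_re (hr (n + 1)), DataB_re (hr (n + 2)), h0] at h
      exact h
    have h3 := W.r_real (DataB_P W p x n).re (by rw [h0]; exact DataB_mem W hp hx n)
    rw [h0] at h3
    have h4 := DataB_re hM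
    have h5 := DataB_re (DataB_real1 he W hp hx hr (n + 1)).2
    rw [DataB_Phi_succ, DataB_FWp he W hp hx hr, ← h4, ← DataB_re h3]
    rw [← Complex.ofReal_mul]
    nth_rewrite 1 [← h5]
    rw [← Complex.ofReal_sub, ← Complex.ofReal_div, Complex.ofReal_im]

end RealPart

/-- The real orbit of a real fixed sequence. -/
private noncomputable def DataB_ws (W : WDataB e κ) (p : ℝ) (x : ℕ → ℂ) : ℕ → ℝ
  | 0 => Real.exp p
  | 1 => (DataB_w W p x).re
  | n + 2 => (wn κ (DataB_P W p x n) (DataB_d W p x (n + 1))).re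

private noncomputable def DataB_zs (W : WDataB e κ) (p : ℝ) (x : ℕ → ℂ) : ℕ → ℝ
  | 0 => (z0B e κ p (DataB_w W p x)).re
  | n + 1 => Real.cosh κ - (DataB_P W p x n).re

private theorem DataB_hyps (he : 1 < e) (W : WDataB e κ) {p : ℝ} (hp : (p : ℂ) ∈ W.D)
    {x : ℕ → ℂ} (hx : ∀ n, ‖x n‖ ≤ 1) (hr : ∀ n, (x n).im = 0)
    (hfix : ∀ n, x n = PhiB e κ W.c1 W.r1 W.r W.M1 W.M p x n) :
    (∀ n, 1 < DataB_ws W p x (n + 1)) ∧
    (∀ n, c2 e κ * (gr e (DataB_ws W p x (n + 1)) -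
      gr e (1 / DataB_ws W p x n)) = 2 * DataB_zs W p x n) ∧
    (∀ n, DataB_zs W p x n + (Real.cosh κ - 1) =
      DataB_ws W p x (n + 1) *
        (DataB_zs W p x (n + 1) - (Real.cosh κ - 1))) ∧
    (|DataB_zs W p x 0 - (Real.cosh κ - 1)| <
      2 * Real.sinh (κ / 2) * Real.cosh (e * κ / 2) ^ (1 / e) *
        Real.sqrt (gr e (1 / DataB_ws W p x 0))) ∧
    Tendsto (DataB_ws W p x) atTop (𝓝 (Real.exp κ)) ∧
    Tendsto (DataB_zs W p x) atTop (𝓝 (Real.sinh κ)) := by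
  have he0 : 0 < e := by linarith
  set P : ℕ → ℝ := fun n => (DataB_P W p x n).re with hP
  set d : ℕ → ℝ := fun n => (DataB_d W p x n).re with hd
  have hPc : ∀ n, ((P n : ℝ) : ℂ) = DataB_P W p x n := fun n =>
    DataB_re (DataB_real1 he0 W hp hx hr n).1
  have hdc : ∀ n, ((d n : ℝ) : ℂ) = DataB_d W p x n := fun n =>
    DataB_re (DataB_real1 he0 W hp hx hr n).2
  have hxc : ∀ n, (((x n).re : ℝ) : ℂ) = x n := fun n => DataB_re (hr n)
  have hmem := fun n => DataB_mem W hp hx n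
  have hwwc := DataB_re (DataB_w_im W hp hr)
  set w : ℕ → ℝ := DataB_ws W p x with hw
  have hw0 : w 0 = Real.exp p := rfl
  have hw1' : w 1 = (DataB_w W p x).re := rfl
  have hwS : ∀ n, w (n + 2) = (wn κ (DataB_P W p x n) (DataB_d W p x (n + 1))).re :=
    fun n => rfl
  have hwr : ∀ n, w (n + 2) = (2 * Real.cosh κ - P n) / (1 - d (n + 1)) := by
    intro n
    rw [hwS, ← hPc, ← hdc, DataB_wn_real, Complex.ofReal_re]
  have hwc : ∀ n, wn κ (DataB_P W p x n) (DataB_d W p x (n + 1)) =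
      ((w (n + 2) : ℝ) : ℂ) := by
    intro n
    rw [hwr, ← hPc, ← hdc, DataB_wn_real]
  have hw1 : ∀ n, 1 < w (n + 1) := by
    intro n
    rcases n with _ | n
    · exact DataB_w_gt W hp hx hr
    have h1 : wn κ (DataB_P W p x n) (DataB_d W p x (n + 1)) ∈ slitPlane :=
      W.w_slit _ (hmem n) (x (n + 1)) (hx (n + 1))
    have h2 : 1 < ‖wn κ (DataB_P W p x n) (DataB_d W p x (n + 1))‖ :=
      W.w_norm _ (hmem n) (x (n + 1)) (hx (n + 1))
    rw [hwc, Complex.ofReal_mem_slitPlane] at h1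
    rw [hwc, Complex.norm_real, Real.norm_eq_abs, abs_of_pos h1] at h2
    exact h2
  have hden : ∀ n, 2 * Real.cosh κ - P n ≠ 0 := by
    intro n h
    apply W.den_ne _ (hmem n)
    rw [← hPc]
    exact_mod_cast congrArg (fun t : ℝ => (t : ℂ)) h
  have hone : ∀ n, 1 - d (n + 1) ≠ 0 := by
    intro n h
    apply W.one_sub_ne _ (hmem n) (x (n + 1)) (hx (n + 1))
    have h1 : W.r (DataB_P W p x n) * x (n + 1) = DataB_d W p x (n + 1) := rfl
    rw [h1, ← hdc]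
    exact_mod_cast congrArg (fun t : ℝ => (t : ℂ)) h
  have hnx : ∀ n, P (n + 1) = d (n + 1) + (1 - d (n + 1)) / (2 * Real.cosh κ - P n) := by
    intro n
    have h1 := DataB_P_succ W (p : ℂ) x n
    show (DataB_P W p x (n + 1)).re = _
    rw [h1, ← hPc, ← hdc, DataB_nxt_real, Complex.ofReal_re]
  have hinv : ∀ n, P n - d n = 1 / w (n + 1) := by
    intro n
    rcases n with _ | n
    · have h1 : DataB_P W (p : ℂ) x 0 = DataB_d W p x 0 + 1 / DataB_w W p x := rfl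
      have h2 : (1 / DataB_w W (p : ℂ) x).re = 1 / w 1 := by
        rw [← hwwc, ← Complex.ofReal_one, ← Complex.ofReal_div, Complex.ofReal_re, hw1']
      show (DataB_P W (p : ℂ) x 0).re - (DataB_d W (p : ℂ) x 0).re = _
      rw [h1, Complex.add_re, h2]
      ring
    rw [hnx, hwr]
    have h1 := hden n
    have h2 := hone n
    field_simp
    ring
  set ζ : ℕ → ℝ := DataB_zs W p x with hζdef
  have hz0 : ζ 0 = (z0B e κ p (DataB_w W p x)).re := rfl
  have hz0c : ((ζ 0 : ℝ) : ℂ) = z0B e κ p (DataB_w W p x) := by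
    rw [hz0, DataB_z0_re he0 W hp hx hr, Complex.ofReal_re]
  have hz : ∀ n, ζ (n + 1) = Real.cosh κ - P n := fun n => rfl
  -- `w 1 (1 - d 1) = C + ζ 0`
  have hd0 : w 1 * (1 - d 0) = Real.cosh κ + ζ 0 := by
    have h1 : DataB_d W (p : ℂ) x 0 =
      1 - ((Real.cosh κ : ℂ) + z0B e κ p (DataB_w W p x)) / DataB_w W p x := rfl
    rw [← hz0c, ← hdc, ← hwwc, ← Complex.ofReal_one, ← Complex.ofReal_add,
      ← Complex.ofReal_div, ← Complex.ofReal_sub, Complex.ofReal_inj] at h1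
    have h2 : w 1 ≠ 0 := by linarith [hw1 0]
    rw [h1, ← hw1']
    field_simp
    ring
  set q := Real.exp (-κ) with hq
  have hlimP : Tendsto P atTop (𝓝 q) := by
    have h1 : ∀ n, |P n - q| ≤ W.lam ^ n * |P 0 - q| := by
      intro n
      induction n with
      | zero => simp
      | succ n ih =>
        have h2 := W.contr (P n) (by rw [hPc]; exact hmem n) (x (n + 1)).re
          ((Complex.abs_re_le_norm _).trans (hx _))
        rw [hxc, hPc] at h2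
        have h3 : |P (n + 1) - q| ≤ W.lam * |P n - q| := h2
        calc |P (n + 1) - q| ≤ W.lam * |P n - q| := h3
          _ ≤ W.lam * (W.lam ^ n * |P 0 - q|) := mul_le_mul_of_nonneg_left ih W.hlam0
          _ = W.lam ^ (n + 1) * |P 0 - q| := by ring
    have h2 : Tendsto (fun n => W.lam ^ n * |P 0 - q|) atTop (𝓝 0) := by
      have := (tendsto_pow_atTop_nhds_zero_of_lt_one W.hlam0 W.hlam1).mul_const |P 0 - q|
      simpa using this
    rw [tendsto_iff_dist_tendsto_zero]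
    refine squeeze_zero (fun n => dist_nonneg) (fun n => ?_) h2
    rw [Real.dist_eq]
    exact h1 n
  have hlimd : Tendsto (fun n => d (n + 1)) atTop (𝓝 0) := by
    have h1 : ∀ n, |d (n + 1)| ≤ W.B * |P n - q| := by
      intro n
      have h2 := W.r_le (P n) (by rw [hPc]; exact hmem n)
      have h3 : |d (n + 1)| ≤ ‖DataB_d W p x (n + 1)‖ := Complex.abs_re_le_norm _
      have h4 : ‖DataB_d W p x (n + 1)‖ ≤ ‖W.r (P n : ℂ)‖ := by
        rw [DataB_d_succ, norm_mul, hPc]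
        have h5 := norm_nonneg (W.r (DataB_P W p x n))
        have h6 := hx (n + 1)
        exact mul_le_of_le_one_right h5 h6
      exact (h3.trans h4).trans h2
    have h2 : Tendsto (fun n => W.B * |P n - q|) atTop (𝓝 0) := by
      have h3 : Tendsto (fun n => P n - q) atTop (𝓝 (q - q)) := hlimP.sub_const q
      rw [sub_self] at h3
      have h4 := (h3.abs).const_mul W.B
      simpa using h4
    exact squeeze_zero_norm h1 h2
  have hC : 2 * Real.cosh κ - q = Real.exp κ := by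
    rw [Real.cosh_eq]
    ring
  refine ⟨hw1, ?_, ?_, ?_, ?_, ?_⟩
  · intro n
    rcases n with _ | n
    · have h1 : ζ 0 = (c2 e κ * gr e (w 1) - c2 e κ * gr e (Real.exp (-p))) / 2 := by
        rw [hz0, DataB_z0_re he0 W hp hx hr, Complex.ofReal_re, ← hw1']
      have h2 : 1 / w 0 = Real.exp (-p) := by rw [hw0, Real.exp_neg, one_div]
      rw [h2, h1]
      ring
    · have h1 : FW e κ (DataB_P W p x n) (DataB_d W p x n) (DataB_d W p x (n + 1)) = 0 := by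
        rcases n with _ | n
        · have h2 := hfix 0
          rw [DataB_Phi_zero, eq_div_iff (W.r1_ne p hp)] at h2
          have h4 : W.M1 p (DataB_w W p x) (DataB_d W p x 1) *
              FW e κ (DataB_P W p x 0) (DataB_d W p x 0) (DataB_d W p x 1) = 0 := by
            linear_combination h2
          exact (mul_eq_zero.1 h4).resolve_left (W.M1_ne p hp (x 0) (x 1) (hx 0) (hx 1))
        · have h2 := hfix (n + 1)
          rw [DataB_Phi_succ, eq_div_iff (W.r_ne _ (hmem n))] at h2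
          have h3 := DataB_d_succ W (p : ℂ) x n
          have h4 : W.M (DataB_P W p x (n + 1)) (DataB_d W p x (n + 1)) (DataB_d W p x (n + 2)) *
            FW e κ (DataB_P W p x (n + 1)) (DataB_d W p x (n + 1)) (DataB_d W p x (n + 2)) = 0 := by
            linear_combination h2 + h3
          exact (mul_eq_zero.1 h4).resolve_left
            (W.M_ne _ (hmem n) (x (n + 1)) (x (n + 2)) (hx _) (hx _))
      rw [DataB_FWp he0 W hp hx hr, Complex.ofReal_eq_zero] at h1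
      have h3 : c2 e κ * gr e (w (n + 2)) - c2 e κ * gr e (P n - d n) -
        2 * (Real.cosh κ - P n) = 0 := h1
      rw [hinv n] at h3
      rw [hz]
      linarith
  · intro n
    rcases n with _ | n
    · rw [hz]
      have h1 := hinv 0
      have h2 : w 1 ≠ 0 := by linarith [hw1 0]
      have h4 : w 1 * (P 0 - d 0) = 1 := by
        rw [h1, mul_one_div, div_self h2]
      linear_combination -hd0 + h4
    rw [hz, hz]
    have h1 := hinv (n + 1)
    have h2 : w (n + 2) ≠ 0 := by linarith [hw1 (n + 1)]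
    have h3 : w (n + 2) * (1 - d (n + 1)) = 2 * Real.cosh κ - P n := by
      rw [hwr, div_mul_cancel₀ _ (hone n)]
    have h4 : w (n + 2) * (P (n + 1) - d (n + 1)) = 1 := by
      rw [h1, mul_one_div, div_self h2]
    linear_combination -h3 + h4
  · have h1 : 1 / w 0 = Real.exp (-p) := by rw [hw0, Real.exp_neg, one_div]
    rw [h1, gr_exp he0]
    have hch : 0 < Real.cosh (e * p / 2) := Real.cosh_pos _
    have h2 : Real.sqrt (Real.exp (-p) * Real.cosh (e * p / 2) ^ (-(2 / e))) =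
        Real.exp (-p / 2) * Real.cosh (e * p / 2) ^ (-(1 / e)) := by
      have h3 : Real.exp (-p) * Real.cosh (e * p / 2) ^ (-(2 / e)) =
          (Real.exp (-p / 2) * Real.cosh (e * p / 2) ^ (-(1 / e))) ^ 2 := by
        rw [mul_pow, ← Real.exp_nat_mul, ← Real.rpow_natCast, ← Real.rpow_mul hch.le]
        congr 2
        · push_cast
          ring
        · push_cast
          ring
      rw [h3, Real.sqrt_sq (by positivity)]
    rw [h2]
    set d0 : ℝ := (d0B e κ p (DataB_w W p x)).re with hd0r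
    have h3 : d0 = Real.cosh κ - ζ 0 - Real.exp (-p) := by
      have h5 : d0B e κ (p : ℂ) (DataB_w W p x) = (Real.cosh κ : ℂ) -
        z0B e κ p (DataB_w W p x) - exp (-(p : ℂ)) := rfl
      have h6 : exp (-(p : ℂ)) = ((Real.exp (-p) : ℝ) : ℂ) := by push_cast; rfl
      rw [hd0r, h5, h6, ← hz0c, ← Complex.ofReal_sub, ← Complex.ofReal_sub, Complex.ofReal_re]
    have h4 : ζ 0 - (Real.cosh κ - 1) =
        Real.exp (-p / 2) * (2 * Real.sinh (p / 2) - Real.exp (p / 2) * d0) := by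
      have e0 : ζ 0 - (Real.cosh κ - 1) = 1 - Real.exp (-p) - d0 := by
        rw [h3]
        ring
      rw [e0, Real.sinh_eq]
      have e1 : Real.exp (-p / 2) * Real.exp (p / 2) = 1 := by
        rw [← Real.exp_add]
        have : -p / 2 + p / 2 = 0 := by ring
        rw [this, Real.exp_zero]
      have e2 : Real.exp (-p / 2) * Real.exp (-(p / 2)) = Real.exp (-p) := by
        rw [← Real.exp_add]
        congr 1
        ring
      linear_combination (-1 + d0) * e1 + e2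
    have h7 := W.real_small p hp x hx hr hfix
    have h7' : |2 * Real.sinh (p / 2) - Real.exp (p / 2) * d0| *
      Real.cosh (e * p / 2) ^ (1 / e) <
        2 * Real.sinh (κ / 2) * Real.cosh (e * κ / 2) ^ (1 / e) := h7
    rw [h4, abs_mul, abs_of_pos (Real.exp_pos _)]
    have hcp : 0 < Real.cosh (e * p / 2) ^ (1 / e) := Real.rpow_pos_of_pos hch _
    have hcn : Real.cosh (e * p / 2) ^ (-(1 / e)) = (Real.cosh (e * p / 2) ^ (1 / e))⁻¹ :=
      Real.rpow_neg hch.le _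
    rw [hcn]
    have h8 : |2 * Real.sinh (p / 2) - Real.exp (p / 2) * d0| <
        2 * Real.sinh (κ / 2) * Real.cosh (e * κ / 2) ^ (1 / e) *
          (Real.cosh (e * p / 2) ^ (1 / e))⁻¹ := by
      rw [← div_eq_mul_inv, lt_div_iff₀ hcp]
      exact h7'
    calc Real.exp (-p / 2) * |2 * Real.sinh (p / 2) - Real.exp (p / 2) * d0|
        < Real.exp (-p / 2) * (2 * Real.sinh (κ / 2) * Real.cosh (e * κ / 2) ^ (1 / e) *
          (Real.cosh (e * p / 2) ^ (1 / e))⁻¹) := mul_lt_mul_of_pos_left h8 (Real.exp_pos _)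
      _ = _ := by ring
  · have h1 : Tendsto (fun n => w (n + 2)) atTop (𝓝 (Real.exp κ)) := by
      have h2 : Tendsto (fun n => (2 * Real.cosh κ - P n) / (1 - d (n + 1))) atTop
          (𝓝 ((2 * Real.cosh κ - q) / (1 - 0))) :=
        (hlimP.const_sub _).div (hlimd.const_sub 1) (by norm_num)
      rw [sub_zero, div_one, hC] at h2
      exact h2.congr (fun n => (hwr n).symm)
    exact (tendsto_add_atTop_iff_nat 2).1 h1
  · have h1 : Tendsto (fun n => Real.cosh κ - P n) atTop (𝓝 (Real.cosh κ - q)) :=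
      hlimP.const_sub _
    have h2 : Real.cosh κ - q = Real.sinh κ := by
      rw [Real.cosh_eq, Real.sinh_eq, hq]
      ring
    rw [h2] at h1
    exact (tendsto_add_atTop_iff_nat 1).1 (h1.congr (fun n => (hz n).symm))

/-- **The interface theorem.**  Same proof as `WData.nonempty_wTrap` with the real sequences
`w 0 = exp p`, `w 1 = (c1 p + r1 p x 0).re`, `w (n+2) = (wn κ (posB n) (devB (n+1))).re`,
`ζ 0 = (z0B ..).re`, `ζ (n+1) = cosh κ - (posB n).re`: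
law of link `0` by definition of `z0B` (`gl e w1 = gr e w1`, `gp e p = gr e (exp (-p))`);
`ζ 0 + ω = w 1 (ζ 1 - ω)` since `Y 1 = d 1 + 1/w 1`, `w 1 (1 - d 1) = C + ζ 0`;
law of link `1`: `FW = 0` with `Y 1 - d 1 = 1/w 1`; the others as before.
`Tf p x = (exp (p/2) - exp (-p/2) - exp (p/2) * d0B e κ p (c1 p + r1 p x 0)) cosh(ep/2)^(1/e) /
  (2 sinh(κ/2) cosh(eκ/2)^(1/e))`. -/
theorem WDataB.nonempty_wTrap (he : 1 < e) (hκ : 0 < κ) (W : WDataB e κ) :
    Nonempty (WTrap e (Real.exp κ)) := by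
  have he0 : 0 < e := by linarith
  set Bc : ℝ := 2 * Real.sinh (κ / 2) * Real.cosh (e * κ / 2) ^ (1 / e) with hBc
  have hBpos : 0 < Bc := by
    have h1 := Real.sinh_pos_iff.2 (half_pos hκ)
    have h2 : 0 < Real.cosh (e * κ / 2) ^ (1 / e) := Real.rpow_pos_of_pos (Real.cosh_pos _) _
    positivity
  have hall : ∀ p : ℝ, (p : ℂ) ∈ W.D → ∀ x : ℕ → ℂ, (∀ n, ‖x n‖ ≤ 1) → (∀ n, (x n).im = 0) →
      (∀ n, x n = PhiB e κ W.c1 W.r1 W.r W.M1 W.M p x n) →
      (∀ n, sl e κ (DataB_ws W p x) (DataB_zs W p x) n <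
        sl e κ (DataB_ws W p x) (DataB_zs W p x) (n + 1)) ∧
      (∀ n, (sl e κ (DataB_ws W p x) (DataB_zs W p x) (n + 1) -
        sl e κ (DataB_ws W p x) (DataB_zs W p x) n) ^ (-e) +
        (sl e κ (DataB_ws W p x) (DataB_zs W p x) (n + 2) -
        sl e κ (DataB_ws W p x) (DataB_zs W p x) (n + 1)) ^ (-e) =
        FF e (Real.exp κ) (sl e κ (DataB_ws W p x) (DataB_zs W p x) (n + 1))) ∧
      Tendsto (sl e κ (DataB_ws W p x) (DataB_zs W p x)) atTop atTop ∧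
      Tendsto (fun n => sl e κ (DataB_ws W p x) (DataB_zs W p x) (n + 1) /
        sl e κ (DataB_ws W p x) (DataB_zs W p x) n) atTop (𝓝 (Real.exp κ)) ∧
      (sl e κ (DataB_ws W p x) (DataB_zs W p x) 1 -
        sl e κ (DataB_ws W p x) (DataB_zs W p x) 0) ^ (-e) /
        FF e (Real.exp κ) (sl e κ (DataB_ws W p x) (DataB_zs W p x) 0) =
        1 / (1 + Real.exp (e * p)) ∧
      sl e κ (DataB_ws W p x) (DataB_zs W p x) 0 /
        Real.sqrt (1 + sl e κ (DataB_ws W p x) (DataB_zs W p x) 0 ^ 2) =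
        (1 - Real.exp (-p) - (d0B e κ p (DataB_w W p x)).re) /
          (Bc * (Real.exp (-p / 2) * Real.cosh (e * p / 2) ^ (-(1 / e)))) := by
    intro p hp x hx hr hfix
    obtain ⟨a1, a2, a3, a4, a5, a6⟩ := DataB_hyps he W hp hx hr hfix
    have hw0 : DataB_ws W p x 0 = Real.exp p := rfl
    obtain ⟨b1, b2, b3, b4, b5, b6⟩ := orbit_of_w he hκ (by rw [hw0]; exact Real.exp_pos p)
      a1 a2 a3 a4 a5 a6
    refine ⟨b1, b2, b3, b4, ?_, ?_⟩
    · rw [b5, hw0, ← Real.exp_mul, mul_comm p e]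
    · rw [b6]
      have h1 : 1 / DataB_ws W p x 0 = Real.exp (-p) := by rw [hw0, Real.exp_neg, one_div]
      rw [h1, gr_exp he0]
      have hch : 0 < Real.cosh (e * p / 2) := Real.cosh_pos _
      have h2 : Real.sqrt (Real.exp (-p) * Real.cosh (e * p / 2) ^ (-(2 / e))) =
          Real.exp (-p / 2) * Real.cosh (e * p / 2) ^ (-(1 / e)) := by
        have h3 : Real.exp (-p) * Real.cosh (e * p / 2) ^ (-(2 / e)) =
            (Real.exp (-p / 2) * Real.cosh (e * p / 2) ^ (-(1 / e))) ^ 2 := by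
          rw [mul_pow, ← Real.exp_nat_mul, ← Real.rpow_natCast, ← Real.rpow_mul hch.le]
          congr 2
          · push_cast
            ring
          · push_cast
            ring
        rw [h3, Real.sqrt_sq (by positivity)]
      rw [h2]
      have h3 : DataB_zs W p x 0 - (Real.cosh κ - 1) =
          1 - Real.exp (-p) - (d0B e κ p (DataB_w W p x)).re := by
        have h5 : d0B e κ (p : ℂ) (DataB_w W p x) = (Real.cosh κ : ℂ) -
          z0B e κ p (DataB_w W p x) - exp (-(p : ℂ)) := rfl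
        have h6 : exp (-(p : ℂ)) = ((Real.exp (-p) : ℝ) : ℂ) := by push_cast; rfl
        show (z0B e κ p (DataB_w W p x)).re - (Real.cosh κ - 1) = _
        rw [h5, h6, Complex.sub_re, Complex.sub_re, Complex.ofReal_re, Complex.ofReal_re]
        ring
      rw [h3]
  refine ⟨{
    θ := W.θ
    hθ0 := W.hθ0
    hθ1 := W.hθ1
    D := W.D
    isOpen_D := W.isOpen_D
    R := fun _ _ => 1
    R_pos := fun _ _ _ => one_pos
    R_cont := ?_
    Φ := PhiB e κ W.c1 W.r1 W.r W.M1 W.M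
    maps := ?_
    hol := DataB_hol he0 W
    real := fun p hp x hx hr n => DataB_real he0 W hp hx hr n
    s := fun p x => sl e κ (DataB_ws W p x) (DataB_zs W p x)
    orbit := ?_
    param := ?_
    Tf := fun p x => (exp (p / 2) - exp (-p / 2) - exp (p / 2) *
      d0B e κ p (DataB_w W p x)) * cosh (e * p / 2) ^ ((1 / e : ℝ) : ℂ) / (Bc : ℂ)
    hol_Tf := ?_
    Tf_real := ?_
    η := W.η
    hη := W.hη
    seg := W.seg
    δ := W.δ
    hδ := W.hδ
    segr := W.segr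
    neg := ?_
    pos := ?_
    test := ?_ }⟩
  · intro s _ ε hε
    filter_upwards with t n
    constructor <;> linarith
  · intro p hp x hx n
    rw [mul_one]
    exact DataB_maps W hp hx n
  · intro p hp x hx hr hfix
    obtain ⟨b1, b2, b3, b4, -, -⟩ := hall p hp x hx hr hfix
    exact ⟨b1, b2, b3, b4⟩
  · intro p hp x hx hr hfix
    exact (hall p hp x hx hr hfix).2.2.2.2.1
  · intro x hx hb
    have h1 : DifferentiableOn ℂ (fun z : ℂ => exp (z / 2)) W.D := by fun_prop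
    have h2 : DifferentiableOn ℂ (fun z : ℂ => exp (-z / 2)) W.D := by fun_prop
    have h3 : DifferentiableOn ℂ (fun z : ℂ => cosh (e * z / 2) ^ ((1 / e : ℝ) : ℂ)) W.D := by
      intro z hz
      have h4 : DifferentiableAt ℂ (fun z : ℂ => cosh (e * z / 2)) z := by fun_prop
      exact (h4.cpow_const (W.cosh_slit z hz)).differentiableWithinAt
    have h5 : DifferentiableOn ℂ (fun z : ℂ => d0B e κ z (DataB_w W z (x z))) W.D := by
      intro z hz
      exact (DataB_d0_diff (τ := fun z => z) (x := x) he0 W W.isOpen_D differentiableOn_id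
        (fun z hz => hz) (hx 0) (fun z hz n => hb z hz n) hz).differentiableWithinAt
    exact (((h1.sub h2).sub (h1.mul h5)).mul h3).div_const _
  · intro p hp x hx hr hfix
    have h1 := (hall p hp x hx hr hfix).2.2.2.2.2
    show (exp ((p : ℂ) / 2) - exp (-(p : ℂ) / 2) - exp ((p : ℂ) / 2) *
      d0B e κ p (DataB_w W p x)) * cosh (e * (p : ℂ) / 2) ^ ((1 / e : ℝ) : ℂ) / (Bc : ℂ) =
      ((sl e κ (DataB_ws W p x) (DataB_zs W p x) 0 /
        Real.sqrt (1 + sl e κ (DataB_ws W p x) (DataB_zs W p x) 0 ^ 2) : ℝ) : ℂ)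
    rw [h1]
    have hd : (((d0B e κ p (DataB_w W p x)).re : ℝ) : ℂ) = d0B e κ p (DataB_w W p x) :=
      DataB_re (DataB_d0_im he0 W hp hx hr)
    have e1 : exp ((p : ℂ) / 2) = ((Real.exp (p / 2) : ℝ) : ℂ) := by push_cast; rfl
    have e2 : exp (-(p : ℂ) / 2) = ((Real.exp (-p / 2) : ℝ) : ℂ) := by push_cast; rfl
    have e3 : cosh ((e : ℂ) * p / 2) = ((Real.cosh (e * p / 2) : ℝ) : ℂ) := by push_cast; rfl
    have hch : 0 < Real.cosh (e * p / 2) := Real.cosh_pos _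
    rw [e1, e2, e3, ← Complex.ofReal_cpow hch.le, ← hd, ← Complex.ofReal_mul,
      ← Complex.ofReal_sub, ← Complex.ofReal_sub, ← Complex.ofReal_mul, ← Complex.ofReal_div,
      Complex.ofReal_inj, hd]
    set v := (d0B e κ p (DataB_w W p x)).re with hv
    have hcp : 0 < Real.cosh (e * p / 2) ^ (1 / e) := Real.rpow_pos_of_pos hch _
    have hcn : Real.cosh (e * p / 2) ^ (-(1 / e)) = (Real.cosh (e * p / 2) ^ (1 / e))⁻¹ :=
      Real.rpow_neg hch.le _
    have hE : Real.exp (-p / 2) = (Real.exp (p / 2))⁻¹ := by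
      rw [← Real.exp_neg]
      congr 1
      ring
    have hE2 : Real.exp (-p) = (Real.exp (p / 2))⁻¹ * (Real.exp (p / 2))⁻¹ := by
      rw [← Real.exp_neg, ← Real.exp_add]
      congr 1
      ring
    rw [hcn, hE, hE2]
    have hE0 := (Real.exp_pos (p / 2)).ne'
    have hB0 := hBpos.ne'
    field_simp
  · intro x hx hr hfix
    have h1 := (hall (-W.δ) (W.segr (-W.δ) (by rw [abs_neg, abs_of_pos W.hδ])) x hx hr
      hfix).2.2.2.2.2
    set S := sl e κ (DataB_ws W (-W.δ) x) (DataB_zs W (-W.δ) x) 0 with hS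
    show S < 0
    have hden : 0 < Bc * (Real.exp (-(-W.δ) / 2) * Real.cosh (e * (-W.δ) / 2) ^ (-(1 / e))) := by
      have h2 : 0 < Real.cosh (e * (-W.δ) / 2) ^ (-(1 / e)) :=
        Real.rpow_pos_of_pos (Real.cosh_pos _) _
      have h3 := Real.exp_pos (-(-W.δ) / 2)
      positivity
    have h6 := W.d0_small' x hx hr (by simpa using hfix)
    have h7 : 1 - Real.exp W.δ < (d0B e κ ((-W.δ : ℝ) : ℂ)
      (DataB_w W ((-W.δ : ℝ) : ℂ) x)).re := h6
    have hnum : 1 - Real.exp (-(-W.δ)) -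
        (d0B e κ ((-W.δ : ℝ) : ℂ) (DataB_w W ((-W.δ : ℝ) : ℂ) x)).re < 0 := by
      rw [neg_neg]
      linarith
    have h9 : S / Real.sqrt (1 + S ^ 2) < 0 := by
      rw [h1]
      exact div_neg_of_neg_of_pos hnum hden
    by_contra hc
    push Not at hc
    have h10 : 0 ≤ S / Real.sqrt (1 + S ^ 2) := div_nonneg hc (Real.sqrt_nonneg _)
    linarith
  · intro x hx hr hfix
    have h1 := (hall W.δ (W.segr W.δ (by rw [abs_of_pos W.hδ])) x hx hr hfix).2.2.2.2.2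
    set S := sl e κ (DataB_ws W W.δ x) (DataB_zs W W.δ x) 0 with hS
    show 0 < S
    have hden : 0 < Bc * (Real.exp (-W.δ / 2) * Real.cosh (e * W.δ / 2) ^ (-(1 / e))) := by
      have h2 : 0 < Real.cosh (e * W.δ / 2) ^ (-(1 / e)) :=
        Real.rpow_pos_of_pos (Real.cosh_pos _) _
      have h3 := Real.exp_pos (-W.δ / 2)
      positivity
    have h6 := W.d0_small x hx hr hfix
    have h7 : (d0B e κ (W.δ : ℂ) (DataB_w W (W.δ : ℂ) x)).re < 1 - Real.exp (-W.δ) := h6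
    have hnum : 0 < 1 - Real.exp (-W.δ) - (d0B e κ (W.δ : ℂ) (DataB_w W (W.δ : ℂ) x)).re := by
      linarith
    have h9 : 0 < S / Real.sqrt (1 + S ^ 2) := by
      rw [h1]
      exact div_pos hnum hden
    by_contra hc
    push Not at hc
    have h10 : S / Real.sqrt (1 + S ^ 2) ≤ 0 :=
      div_nonpos_of_nonpos_of_nonneg hc (Real.sqrt_nonneg _)
    linarith
  · intro x hx hfix
    have ht := W.test x hx hfix
    have hD := W.seg W.η (by rw [abs_of_pos W.hη])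
    have hsl := W.cosh_slit _ hD
    have e3 : cosh ((e : ℂ) * ((W.η : ℂ) * I) / 2) = ((Real.cos (e * W.η / 2) : ℝ) : ℂ) := by
      have : (e : ℂ) * ((W.η : ℂ) * I) / 2 = ((e * W.η / 2 : ℝ) : ℂ) * I := by
        push_cast
        ring
      rw [this, Complex.cosh_mul_I, Complex.ofReal_cos]
    rw [e3, Complex.ofReal_mem_slitPlane] at hsl
    have ht' : (exp ((W.η : ℂ) * I / 2) *
      d0B e κ ((W.η : ℂ) * I) (DataB_w W ((W.η : ℂ) * I) x)).re ≠ 0 := ht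
    show ((exp ((W.η : ℂ) * I / 2) - exp (-((W.η : ℂ) * I) / 2) -
      exp ((W.η : ℂ) * I / 2) * d0B e κ ((W.η : ℂ) * I) (DataB_w W ((W.η : ℂ) * I) x)) *
      cosh (e * ((W.η : ℂ) * I) / 2) ^ ((1 / e : ℝ) : ℂ) / (Bc : ℂ)).re ≠ 0
    rw [e3, ← Complex.ofReal_cpow hsl.le, Complex.div_ofReal_re, Complex.re_mul_ofReal,
      Complex.sub_re]
    have h4 : (exp ((W.η : ℂ) * I / 2) - exp (-((W.η : ℂ) * I) / 2)).re = 0 := by
      have a1 : (W.η : ℂ) * I / 2 = ((W.η / 2 : ℝ) : ℂ) * I := by push_cast; ring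
      have a2 : -((W.η : ℂ) * I) / 2 = ((-(W.η / 2) : ℝ) : ℂ) * I := by push_cast; ring
      rw [a1, a2, Complex.sub_re, Complex.exp_ofReal_mul_I_re, Complex.exp_ofReal_mul_I_re,
        Real.cos_neg, sub_self]
    rw [h4, zero_sub]
    have h5 : 0 < Real.cos (e * W.η / 2) ^ (1 / e) := Real.rpow_pos_of_pos hsl _
    exact div_ne_zero (mul_ne_zero (neg_ne_zero.2 ht') h5.ne') hBpos.ne'

end Pool.Agent.helper31.EQ.W
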